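import Pool.Agent.Lib.MP_098da0_al.Defs

namespace Pool.Agent.Lib.AG6

/-- Amenability (the Folner condition). -/
def Amenable (G : Type) [Group G] : Prop :=
  ∀ (S : Finset G) (ε : ℝ), 0 < ε → ∃ F : Finset G, F.Nonempty ∧
    ∀ s ∈ S, (Set.ncard {f | f ∈ F ∧ s * f ∉ F} : ℝ) ≤ ε * F.card

variable {V E : Type} {o t : E → V} {G : V → Type} [∀ v, Group (G v)] {H : E → Type}
  [∀ e, Group (H e)] (α : ∀ e, H e →* G (o e)) (β : ∀ e, H e →* G (t e))

/-- Relators of the path group: the multiplication tables of the vertex groups and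
`e * α h * e⁻¹ = β h`. -/
def rels : Set (FreeGroup ((Σ v, G v) ⊕ E)) :=
  {x | (∃ v, ∃ g g' : G v, x = FreeGroup.of (Sum.inl ⟨v, g⟩) * FreeGroup.of (Sum.inl ⟨v, g'⟩) *
      (FreeGroup.of (Sum.inl ⟨v, g * g'⟩))⁻¹) ∨
    ∃ e, ∃ h : H e, x = FreeGroup.of (Sum.inr e) * FreeGroup.of (Sum.inl ⟨o e, α e h⟩) *
      (FreeGroup.of (Sum.inr e))⁻¹ * (FreeGroup.of (Sum.inl ⟨t e, β e h⟩))⁻¹}

/-- `IsPath α β u v x`: the element `x` of the path group is a path from `u` to `v`. -/
inductive IsPath : V → V → PresentedGroup (rels α β) → Prop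
  | vert (v : V) (g : G v) : IsPath v v (PresentedGroup.of (Sum.inl ⟨v, g⟩))
  | edge (e : E) : IsPath (t e) (o e) (PresentedGroup.of (Sum.inr e))
  | mul {u v w : V} {x y : PresentedGroup (rels α β)} :
      IsPath u v x → IsPath v w y → IsPath u w (x * y)
  | inv {u v : V} {x : PresentedGroup (rels α β)} : IsPath u v x → IsPath v u x⁻¹

/-- The fundamental group of the graph of groups at `v`: the closed paths at `v`. -/
def fundGroup (v : V) : Subgroup (PresentedGroup (rels α β)) where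
  carrier := {x | IsPath α β v v x}
  one_mem' := by
    have := (IsPath.vert (α := α) (β := β) v 1).mul (IsPath.vert v 1).inv
    rwa [mul_inv_cancel] at this
  mul_mem' := IsPath.mul
  inv_mem' := IsPath.inv

end Pool.Agent.Lib.AG6
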