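import Pool.Agent.Lib.AG6.PermC
import Pool.Agent.Lib.MP_098da0_al.HSModel

namespace Pool.Agent.Lib.AG6

open Finset Matrix Pool.Agent.Lib.MP_098da0_al
open scoped Kronecker

theorem hsExt : MExt hsModel where
  comm {a b n} h h' := by
    let σ : Fin n ≃ Fin n := (sumE h).symm.trans ((Equiv.sumComm _ _).trans (sumE h'))
    have e : ∀ M : Mat n, (1 : Mat n).submatrix σ (Equiv.refl _) * M *
        ((1 : Mat n).submatrix σ (Equiv.refl _))ᴴ = M.submatrix σ σ := fun M => by
      rw [conjTranspose_submatrix, conjTranspose_one, one_submatrix_mul, mul_submatrix_one]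
      rfl
    refine ⟨⟨(1 : Mat n).submatrix σ (Equiv.refl _), mem_unitaryGroup_iff.2 ?_⟩,
      fun x y => Subtype.ext ?_⟩
    · have := e 1
      rwa [Matrix.mul_one, submatrix_one_equiv] at this
    · refine Eq.trans ?_ (e (bl h' y.1 x.1)).symm
      change bl h x.1 y.1 = _
      apply bl_ext h <;> simp [σ]
  unit {n} h x y := Subtype.ext (by
    change bl h x.1 y.1 = x.1
    ext i j
    have e : ∀ i : Fin n, sumE h (Sum.inl i) = i := fun i => Fin.ext (by simp)
    rw [← e i, ← e j, bl_11, e, e])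

theorem trace_glue {a b n : ℕ} (h : a + b = n) (u : Uni n) (x : Uni a) (y : Uni b) :
    (u * mbs h (x, y) * u⁻¹).1.trace = x.1.trace + y.1.trace := by
  change (u.1 * bl h x.1 y.1 * u.1ᴴ).trace = _
  rw [trace_mul_cycle, uni_star_mul, Matrix.one_mul, trace_bl]

theorem hsHExt (H : Type) [Group H] [Fintype H] : HExt (hsInv H) where
  c_glue h u π l j := trace_glue h u (π j) (l j)
  c_le {n} α j := by
    have := norm_trace_sq_le (α j).1
    rw [fro2_of_isometry (uni_star_mul (α j)), ← sq, Fintype.card_fin] at this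
    exact (abs_le_of_sq_le_sq' this (by positivity)).2

section

variable {G : Type} [Group G]

/-- Characters of finite dimensional unitary representations. -/
def Chr (f : G → ℂ) : Prop := ∃ (n : ℕ) (π : G →* Uni n), ∀ g, (π g).1.trace = f g

theorem Chr.add {f f' : G → ℂ} (h : Chr f) (h' : Chr f') : Chr fun g => f g + f' g := by
  obtain ⟨a, π, h⟩ := h
  obtain ⟨b, l, h'⟩ := h'
  exact ⟨a + b, Model.glue (M := hsModel) rfl 1 π l, fun g =>
    (trace_glue rfl 1 (π g) (l g)).trans (by rw [h, h'])⟩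

theorem Chr.nsmul {f : G → ℂ} (h : Chr f) (k : ℕ) : Chr fun g => k * f g := by
  induction k with
  | zero => exact ⟨0, 1, fun g => by simp⟩
  | succ k ih => simpa [add_mul] using ih.add h

theorem Chr.mul {f f' : G → ℂ} (h : Chr f) (h' : Chr f') : Chr fun g => f g * f' g := by
  obtain ⟨a, π, h⟩ := h
  obtain ⟨b, l, h'⟩ := h'
  refine ⟨a * b, MonoidHom.mk' (fun g =>
    ⟨((π g).1 ⊗ₖ (l g).1).submatrix finProdFinEquiv.symm finProdFinEquiv.symm,
      mem_unitaryGroup_iff'.2 ?_⟩) fun g g' => Subtype.ext ?_, fun g => ?_⟩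
  · rw [star_eq_conjTranspose, conjTranspose_submatrix, submatrix_mul_equiv,
      conjTranspose_kronecker, ← mul_kronecker_mul, uni_star_mul, uni_star_mul, one_kronecker_one,
      submatrix_one_equiv]
  · simp [submatrix_mul_equiv, mul_kronecker_mul]
  · beta_reduce
    rw [← h, ← h', ← trace_kronecker]
    exact Equiv.sum_comp finProdFinEquiv.symm fun i => ((π g).1 ⊗ₖ (l g).1) i i

open Classical in
theorem chr_reg {Q : Type} [Group Q] [Finite Q] (ρ : G →* Q) :
    Chr (fun g => if ρ g = 1 then (Nat.card Q : ℂ) else 0) ∧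
      Chr fun g => (if ρ g = 1 then (Nat.card Q : ℂ) else 0) - 1 := by
  let e := Finite.equivFin Q
  let P : G → Mat (Nat.card Q) := fun g =>
    Matrix.of fun x y => if x = e (ρ g * e.symm y) then 1 else 0
  have h1 : ∀ g g', P (g * g') = P g * P g' := fun g g' => by
    ext x y
    simp [P, Matrix.mul_apply, mul_assoc]
  have h2 : ∀ g, (P g)ᴴ * P g = 1 := fun g => by
    ext x y
    simp [P, Matrix.mul_apply, one_apply, @eq_comm _ y x]
  let π : G →* Uni (Nat.card Q) := MonoidHom.mk' (fun g => ⟨P g, mem_unitaryGroup_iff'.2 (h2 g)⟩)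
    fun g g' => Subtype.ext (h1 g g')
  have h3 : ∀ g, (π g).1.trace = if ρ g = 1 then (Nat.card Q : ℂ) else 0 := fun g => by
    have : ∀ x, x = e (ρ g * e.symm x) ↔ ρ g = 1 := fun x => by
      rw [← e.symm_apply_eq, right_eq_mul]
    change ∑ x, (if x = e (ρ g * e.symm x) then (1 : ℂ) else 0) = _
    simp only [this]
    split_ifs <;> simp
  refine ⟨⟨_, π, h3⟩, ?_⟩
  have hq : (Nat.card Q : ℂ) ≠ 0 := by exact_mod_cast Nat.card_pos.ne'
  let p : Mat (Nat.card Q) := Matrix.of fun _ _ => (Nat.card Q : ℂ)⁻¹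
  have h4 : ∀ g, p * (π g).1 = p := fun g => by
    ext x y
    simp [p, π, P, Matrix.mul_apply]
  have h5 : pᴴ = p := by
    ext x y
    simp [p]
  have h6 : ∀ g, (π g).1 * p = p := fun g => by
    have := congrArg conjTranspose (h4 g⁻¹)
    rwa [conjTranspose_mul, h5, map_inv, uni_inv, conjTranspose_conjTranspose] at this
  obtain ⟨a, b, h, u, π₁, l, k1, k2⟩ := hs_split π h5 (by
    ext x y
    simp [p, Matrix.mul_apply, hq]) fun g => (h6 g).trans (h4 g).symm
  refine ⟨b, l, fun g => ?_⟩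
  have k3 : ((π g).1 * p).trace = 1 := by
    rw [h6]
    simp [p, Matrix.trace, hq]
  have k4 : (π g).1 = u.1 * bl h (π₁ g).1 (l g).1 * u.1ᴴ := congrArg Subtype.val (k1 g)
  rw [k4, k2, show ∀ X Y : Mat _, u.1 * X * u.1ᴴ * (u.1 * Y * u.1ᴴ) =
    u.1 * (X * (u.1ᴴ * u.1) * Y) * u.1ᴴ from fun _ _ => by simp only [Matrix.mul_assoc],
    trace_mul_cycle, uni_star_mul, Matrix.one_mul, Matrix.mul_one, bl_mul, trace_bl,
    Matrix.mul_one, Matrix.mul_zero, trace_zero, add_zero] at k3
  beta_reduce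
  rw [← h3, k1, trace_glue, k3]
  ring

end

variable {V E : Type} {o t : E → V} {G : V → Type} [∀ v, Group (G v)] {H : E → Type}
  [∀ e, Group (H e)] {α : ∀ e, H e →* G (o e)} {β : ∀ e, H e →* G (t e)}

theorem hs_cancels [Finite V] [Finite E] [∀ e, Fintype (H e)]
    [∀ v, Group.ResiduallyFinite (G v)]
    (hα : ∀ e, Function.Injective (α e)) (hβ : ∀ e, Function.Injective (β e)) :
    Cancels (fun e => hsInv (H e)) α β := by
  classical
  intro m (ψ : ∀ v, G v →* Uni (m v))
  obtain ⟨Q, _, _, ρ, h1, h2⟩ := exists_quot hα hβ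
  obtain ⟨N, hN⟩ := (Set.finite_range fun v => m v + Nat.card (Q v)).bddAbove
  have hN' : ∀ v, m v + Nat.card (Q v) ≤ N := fun v => hN ⟨v, rfl⟩
  choose m' χ hχ using fun v => (Chr.mul ⟨_, ψ v, fun _ => rfl⟩ (chr_reg (ρ v)).2).add
    ((chr_reg (ρ v)).1.nsmul (N.factorial / Nat.card (Q v) * N - m v))
  have key : ∀ v (g : G v), (ρ v g = 1 → g = 1) → (ψ v g).1.trace + (χ v g).1.trace =
      if g = 1 then ((N.factorial * N : ℕ) : ℂ) else 0 := by
    intro v g hg
    rw [hχ]
    beta_reduce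
    by_cases h : g = 1
    · have e1 := Nat.dvd_factorial (Nat.card_pos (α := Q v)) (le_of_add_le_right (hN' v))
      have e2 : m v ≤ N.factorial / Nat.card (Q v) * N := (le_of_add_le_left (hN' v)).trans
        (Nat.le_mul_of_pos_left _ (Nat.div_pos (Nat.le_of_dvd N.factorial_pos e1) Nat.card_pos))
      conv_rhs => rw [← Nat.div_mul_cancel e1]
      simp only [h, map_one, if_true, OneMemClass.coe_one, trace_one, Fintype.card_fin,
        Nat.cast_sub e2, Nat.cast_mul]
      ring
    · rw [if_neg h, if_neg fun e => h (hg e)]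
      ring
  refine ⟨0, m', χ, funext fun ⟨e, (h : H e)⟩ => ?_⟩
  have e1 := key _ (α e h) fun e' => by rw [h1 _ _ e', map_one]
  have e2 := key _ (β e h) fun e' => by rw [h2 _ _ e', map_one]
  simp only [map_eq_one_iff _ (hα e), map_eq_one_iff _ (hβ e)] at e1 e2
  rw [zero_add, one_smul]
  change (ψ _ (α e h)).1.trace - (ψ _ (β e h)).1.trace +
    ((χ _ (α e h)).1.trace - (χ _ (β e h)).1.trace) = 0
  linear_combination e1 - e2

end Pool.Agent.Lib.AG6
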