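import Pool.Agent.Lib.AG6.Lattice

namespace Pool.Agent.Lib.AG6

open Finset Filter Asymptotics Pool.Agent.Lib.MP_098da0_al

structure HExt {M : Model} {H : Type} [Group H] (I : HInv M H) : Prop where
  c_glue : ∀ {a b n : ℕ} (h : a + b = n) (u : M.C n) (π : H →* M.C a) (l : H →* M.C b) (j : I.J),
    I.c (Model.glue h u π l) j = I.c π j + I.c l j
  c_le : ∀ {n : ℕ} (α : H →* M.C n) (j : I.J), ‖I.c α j‖ ≤ n

variable {M : Model}

theorem c_cont {H : Type} [Group H] (I : HInv M H) {ε : ℝ} (hε : 0 < ε) :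
    ∃ δ : ℝ, 0 < δ ∧ ∀ (n : ℕ) (α β : H →* M.C n), (∀ h, M.D (α h) (β h) ≤ δ * n) →
      ∀ j, ‖I.c α j - I.c β j‖ ≤ ε * n := by
  by_contra hcon
  push Not at hcon
  choose k α β h1 j h2 using fun m : ℕ => hcon (1 / ((m : ℝ) + 1)) (by positivity)
  have h3 := I.cont k α β fun h =>
    small_of_level tendsto_id (fun _ => M.D_nonneg _ _) 0 fun m _ => h1 m h
  obtain ⟨m, hm⟩ := (eventually_all.2 fun j => Small.ev (h3 j) hε).exists
  exact absurd (hm (j m)) (not_le.2 (h2 m))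

theorem glue_comp {G H : Type} [Group G] [Group H] {a b n : ℕ} (h : a + b = n) (u : M.C n)
    (π : G →* M.C a) (l : G →* M.C b) (φ : H →* G) :
    (Model.glue h u π l).comp φ = Model.glue h u (π.comp φ) (l.comp φ) := rfl

theorem shrink_vertex {G : Type} [Group G] [Countable G] (X : MExt M) {c ρ : ℝ} (hc : 0 < c)
    (hc1 : c ≤ 1) (hG : M.Stable G) (hH : Halves M G c) (h0 : 0 ≤ ρ) (h1 : ρ ≤ 1)
    {E : Type} [Finite E] {H : E → Type} [∀ e, Group (H e)] [∀ e, Finite (H e)]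
    (I : ∀ e, HInv M (H e)) (hI : ∀ e, HExt (I e)) (φ : Bool → ∀ e, H e →* G)
    (S : Finset G) (ε : ℝ) (hε : 0 < ε) :
    ∃ n₀ : ℕ, ∀ n, n₀ ≤ n → ∀ ψ : G →* M.C n,
      ∃ (a b : ℕ) (h : a + b = n) (u : M.C n) (π : G →* M.C a) (l : G →* M.C b),
        (∀ s ∈ S, M.D (ψ s) (Model.glue h u π l s) ≤ ε * n) ∧ |(b : ℝ) - ρ * n| ≤ ε * n ∧
        ∀ i e j, ‖(I e).c (π.comp (φ i e)) j - (1 - ρ) * (I e).c (ψ.comp (φ i e)) j‖ ≤ ε * n := by
  classical
  have := Fintype.ofFinite E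
  have := fun e => Fintype.ofFinite (H e)
  let J := Option (Bool × Σ e, (I e).J)
  let T : ∀ {n : ℕ}, (G →* M.C n) → EuclideanSpace ℂ J := fun {n} ψ =>
    WithLp.toLp 2 fun p => p.elim (n : ℂ) fun q => (I q.2.1).c (ψ.comp (φ q.1 q.2.1)) q.2.2
  have hT : ∀ {a b n : ℕ} (h : a + b = n) (u : M.C n) (π : G →* M.C a) (l : G →* M.C b),
      T (Model.glue h u π l) = T π + T l := by
    intro a b n h u π l
    ext p
    rcases p with _ | q
    · simp [T, ← h]
    · simp only [T, Option.elim, PiLp.add_apply, glue_comp, (hI _).c_glue]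
  have hK : ∀ {n : ℕ} (ψ : G →* M.C n), ‖T ψ‖ ≤ (Fintype.card J : ℝ) * n := by
    intro n ψ
    have e1 : ∀ p, ‖T ψ p‖ ≤ n := by
      rintro (_ | q)
      · simp [T]
      · exact (hI _).c_le _ _
    rw [EuclideanSpace.norm_eq]
    refine Real.sqrt_le_iff.2 ⟨by positivity, ?_⟩
    calc ∑ p, ‖T ψ p‖ ^ 2 ≤ ∑ _p : J, (n : ℝ) ^ 2 :=
          Finset.sum_le_sum fun p _ => pow_le_pow_left₀ (norm_nonneg _) (e1 p) 2
      _ = Fintype.card J * (n : ℝ) ^ 2 := by simp
      _ ≤ _ := by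
          have : (1 : ℝ) ≤ Fintype.card J := by exact_mod_cast Fintype.card_pos (α := J)
          rw [mul_pow]
          exact mul_le_mul_of_nonneg_right (by nlinarith) (by positivity)
  choose δ hδ hδ' using fun e => c_cont (I e) (half_pos hε)
  obtain ⟨η, hη, hη1, hη2⟩ : ∃ η : ℝ, 0 < η ∧ η ≤ ε / 2 ∧ ∀ e, η ≤ δ e := by
    obtain ⟨η, h1, h2⟩ := Pi.exists_forall_pos_add_lt (x := fun _ : Option E => (0 : ℝ))
      (y := fun p => p.elim (ε / 2) δ) (by rintro (_ | e); exacts [half_pos hε, hδ e])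
    exact ⟨η, h1, by simpa using (h2 none).le, fun e => by simpa using (h2 (some e)).le⟩
  obtain ⟨n₀, hn₀⟩ := shrink T X hc hc1 hG hH h0 h1 hT hK
    (S ∪ univ.image fun q : Bool × Σ e, H e => φ q.1 q.2.1 q.2.2) η hη
  refine ⟨n₀, fun n hn ψ => ?_⟩
  obtain ⟨a, b, h, u, π, l, d1, d2⟩ := hn₀ n hn ψ
  have hn' : (0 : ℝ) ≤ n := by positivity
  have e1 : η * n ≤ ε / 2 * n := mul_le_mul_of_nonneg_right hη1 hn'
  have e2 : 0 ≤ ε * n := by positivity
  have d3 := fun p => (PiLp.norm_apply_le _ p).trans d2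
  refine ⟨a, b, h, u, π, l, fun s hs => (d1 s (mem_union_left _ hs)).trans (by linarith), ?_,
    fun i e j => ?_⟩
  · have := d3 none
    simp only [T, PiLp.sub_apply, PiLp.smul_apply, Option.elim, smul_eq_mul] at this
    rw [← Real.norm_eq_abs, ← Complex.norm_real]
    push_cast
    linarith
  · have f1 := d3 (some (i, ⟨e, j⟩))
    simp only [T, PiLp.sub_apply, PiLp.smul_apply, Option.elim, smul_eq_mul] at f1
    have f2 := hδ' e n (ψ.comp (φ i e)) ((Model.glue h u π l).comp (φ i e)) (fun x =>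
      (d1 _ (mem_union_right _ (mem_image.2 ⟨(i, ⟨e, x⟩), mem_univ _, rfl⟩))).trans
        (mul_le_mul_of_nonneg_right (hη2 e) hn')) j
    rw [glue_comp, (hI e).c_glue] at f1 f2
    set p := (I e).c (π.comp (φ i e)) j
    set q := (I e).c (l.comp (φ i e)) j
    set r := (I e).c (ψ.comp (φ i e)) j
    have f3 : p - (1 - ρ) * r = -(q - ρ * (p + q)) - ((1 - ρ : ℝ) : ℂ) * (r - (p + q)) := by
      push_cast
      ring
    rw [f3]
    refine (norm_sub_le _ _).trans ?_
    rw [norm_neg, norm_mul, Complex.norm_real, Real.norm_of_nonneg (by linarith)]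
    nlinarith [norm_nonneg (r - (p + q))]

section Graph

variable {V E : Type} {o t : E → V} {G : V → Type} [∀ v, Group (G v)] {H : E → Type}
  [∀ e, Group (H e)] (I : ∀ e, HInv M (H e)) (α : ∀ e, H e →* G (o e)) (β : ∀ e, H e →* G (t e))

/-- The discrepancy of the edge types of a family of vertex representations. -/
def disc {m : V → ℕ} (ψ : ∀ v, G v →* M.C (m v)) (j : Σ e, (I e).J) : ℂ :=
  (I j.1).c ((ψ (o j.1)).comp (α j.1)) j.2 - (I j.1).c ((ψ (t j.1)).comp (β j.1)) j.2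

/-- Every discrepancy can be cancelled. -/
def Cancels : Prop :=
  ∀ (m : V → ℕ) (ψ : ∀ v, G v →* M.C (m v)), ∃ (k : ℕ) (m' : V → ℕ)
    (χ : ∀ v, G v →* M.C (m' v)), (k + 1) • disc I α β ψ + disc I α β χ = 0

variable {I}

theorem disc_glue (hI : ∀ e, HExt (I e)) {a b m : V → ℕ} (h : ∀ v, a v + b v = m v)
    (u : ∀ v, M.C (m v)) (π : ∀ v, G v →* M.C (a v)) (l : ∀ v, G v →* M.C (b v)) :
    disc I α β (fun v => Model.glue (h v) (u v) (π v) (l v)) =
      disc I α β π + disc I α β l := by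
  funext j
  simp only [disc, glue_comp, (hI _).c_glue, Pi.add_apply]
  ring

theorem disc_one (m : V → ℕ) (j : Σ e, (I e).J) :
    disc I α β (fun v => (1 : G v →* M.C (m v))) j =
      ((m (o j.1) : ℂ) - m (t j.1)) * (I j.1).τ j.2 := by
  simp only [disc, MonoidHom.one_comp, HInv.c_one]
  ring

theorem disc_size {m : V → ℕ} {ψ : ∀ v, G v →* M.C (m v)} (h : disc I α β ψ = 0) (e : E) :
    m (o e) = m (t e) := by
  have h1 := (I e).size ((ψ (o e)).comp (α e))
  have h2 := (I e).size ((ψ (t e)).comp (β e))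
  have h3 : ∀ j, (I e).c ((ψ (o e)).comp (α e)) j = (I e).c ((ψ (t e)).comp (β e)) j :=
    fun j => sub_eq_zero.1 (congrFun h ⟨e, j⟩)
  simp only [h3] at h1
  exact_mod_cast h1.trans h2.symm

theorem disc_integral [Fintype E] {m m' : V → ℕ} (ψ : ∀ v, G v →* M.C (m v))
    (χ : ∀ v, G v →* M.C (m' v)) :
    ∃ z : ℤ, ∑ j, disc I α β ψ j * (starRingEnd ℂ) (disc I α β χ j) = z := by
  choose z1 h1 using fun e => (I e).integral ((ψ (o e)).comp (α e)) ((χ (o e)).comp (α e))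
  choose z2 h2 using fun e => (I e).integral ((ψ (o e)).comp (α e)) ((χ (t e)).comp (β e))
  choose z3 h3 using fun e => (I e).integral ((ψ (t e)).comp (β e)) ((χ (o e)).comp (α e))
  choose z4 h4 using fun e => (I e).integral ((ψ (t e)).comp (β e)) ((χ (t e)).comp (β e))
  refine ⟨∑ e, (z1 e - z2 e - z3 e + z4 e), ?_⟩
  rw [Fintype.sum_sigma]
  push_cast
  refine Finset.sum_congr rfl fun e _ => ?_
  rw [← h1, ← h2, ← h3, ← h4, ← Finset.sum_sub_distrib, ← Finset.sum_sub_distrib,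
    ← Finset.sum_add_distrib]
  refine Finset.sum_congr rfl fun j _ => ?_
  simp only [disc, map_sub]
  ring

theorem repair [Fintype E] [Finite V] (hI : ∀ e, HExt (I e)) (hC : Cancels I α β) :
    ∃ C : ℝ, 0 ≤ C ∧ ∀ (m : V → ℕ) (ψ : ∀ v, G v →* M.C (m v)), ∃ (m' : V → ℕ)
      (χ : ∀ v, G v →* M.C (m' v)), disc I α β ψ + disc I α β χ = 0 ∧
        ∀ v, (m' v : ℝ) ≤ C * ∑ j, ‖disc I α β ψ j‖ := by
  classical
  have := Fintype.ofFinite V
  let P : AddSubmonoid (((Σ e, (I e).J) → ℂ) × (V → ℕ)) :=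
    { carrier := {x | ∃ ψ : ∀ v, G v →* M.C (x.2 v), disc I α β ψ = x.1}
      zero_mem' := ⟨fun _ => 1, by funext j; simpa using disc_one α β (I := I) (fun _ => 0) j⟩
      add_mem' := by
        rintro x y ⟨ψ, hψ⟩ ⟨χ, hχ⟩
        exact ⟨fun v => Model.glue rfl 1 (ψ v) (χ v), by
          rw [Prod.fst_add, ← hψ, ← hχ]
          exact disc_glue α β hI (fun _ => rfl) _ _ _⟩ }
  let Λ : AddSubgroup ((Σ e, (I e).J) → ℂ) :=
    { carrier := {w | ∃ m, (w, m) ∈ P}
      zero_mem' := ⟨0, P.zero_mem⟩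
      add_mem' := fun ⟨m, hm⟩ ⟨m', hm'⟩ => ⟨m + m', P.add_mem hm hm'⟩
      neg_mem' := by
        rintro w ⟨m, ψ, hψ⟩
        obtain ⟨k, m', χ, hχ⟩ := hC m ψ
        have h1 : (disc I α β χ, m') ∈ P := ⟨χ, rfl⟩
        have h2 := P.add_mem (P.nsmul_mem (show (w, m) ∈ P from ⟨ψ, hψ⟩) k) h1
        refine ⟨k • m + m', ?_⟩
        have h3 : -w = k • w + disc I α β χ := by
          rw [show disc I α β ψ = w from hψ, succ_nsmul] at hχ
          rw [neg_eq_iff_add_eq_zero, ← hχ]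
          abel
        rw [h3]
        exact h2 }
  obtain ⟨r, g, C, hC0, hg, hC⟩ := lattice_bound Λ (by
    rintro w ⟨m, ψ, hψ⟩ w' ⟨m', χ, hχ⟩
    rw [← show disc I α β ψ = w from hψ, ← show disc I α β χ = w' from hχ]
    exact disc_integral α β ψ χ)
  choose μ hμ using hg
  let B : ℕ := ∑ s, ∑ v, μ s v
  refine ⟨B * C, by positivity, fun m ψ => ?_⟩
  obtain ⟨x, hx1, hx2⟩ := hC (disc I α β ψ) ⟨m, ψ, rfl⟩
  obtain ⟨χ, hχ⟩ := P.sum_mem (t := univ) fun s _ => P.nsmul_mem (hμ s) (x s)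
  refine ⟨_, χ, ?_, fun v => ?_⟩
  · rw [hχ, Prod.fst_sum]
    exact hx1
  · rw [mul_assoc]
    refine le_trans ?_ (mul_le_mul_of_nonneg_left hx2 (by positivity))
    rw [Prod.snd_sum, Finset.sum_apply, Finset.mul_sum]
    push_cast
    refine Finset.sum_le_sum fun s _ => ?_
    have : μ s v ≤ B := (Finset.single_le_sum (f := fun v => μ s v) (fun _ _ => Nat.zero_le _)
      (mem_univ v)).trans (Finset.single_le_sum (f := fun s => ∑ v, μ s v)
        (fun _ _ => Nat.zero_le _) (mem_univ s))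
    have h2 : (μ s v : ℝ) ≤ B := by exact_mod_cast this
    simp only [Prod.smul_mk, Pi.smul_apply, smul_eq_mul, Nat.cast_mul]
    rw [mul_comm]
    exact mul_le_mul_of_nonneg_right h2 (by positivity)

open Classical in
/-- An edge homomorphism read at a given vertex. -/
noncomputable def atV (α : ∀ e, H e →* G (o e)) (v : V) (e : E) : H e →* G v :=
  if h : o e = v then h ▸ α e else 1

theorem atV_self (e : E) : atV α (o e) e = α e := by
  rw [atV, dif_pos rfl]

theorem match_fin [Fintype E] [Finite V] [∀ e, Finite (H e)] [∀ v, Countable (G v)]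
    (X : MExt M) (hI : ∀ e, HExt (I e)) (hC : Cancels I α β) {c : ℝ} (hc : 0 < c) (hc1 : c ≤ 1)
    (hG : ∀ v, M.Stable (G v)) (hH : ∀ v, Halves M (G v) c) (S : ∀ v, Finset (G v)) {ε : ℝ}
    (hε : 0 < ε) : ∃ δ : ℝ, 0 < δ ∧ ∀ (n : ℕ) (ψ : ∀ v, G v →* M.C n),
      ∑ j, ‖disc I α β (m := fun _ => n) ψ j‖ ≤ δ * n → ∃ χ : ∀ v, G v →* M.C n,
        (∀ v, ∀ s ∈ S v, M.D (ψ v s) (χ v s) ≤ ε * n) ∧ disc I α β (m := fun _ => n) χ = 0 := by
  classical
  have := Fintype.ofFinite V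
  obtain ⟨C, hC0, hC⟩ := repair α β hI hC
  set N : ℝ := ((Fintype.card (Σ e, (I e).J) : ℕ) : ℝ) with hN
  have hN0 : 0 ≤ N := by positivity
  set ρ : ℝ := min (ε / 20) (1 : ℝ) with hρ
  have hρ0 : 0 < ρ := lt_min (by positivity) one_pos
  have hρ1 : ρ ≤ 1 := min_le_right _ _
  have hρ2 : ρ ≤ ε / 20 := min_le_left _ _
  set η : ℝ := ρ / (C * (1 + 2 * N) + 1) with hη
  have hη0 : 0 < η := by positivity
  have hη1 : (C * (1 + 2 * N) + 1) * η = ρ := by rw [hη]; field_simp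
  have hη2 : η ≤ ρ := by nlinarith [mul_nonneg (mul_nonneg hC0 (by linarith : 0 ≤ 1 + 2 * N)) hη0.le]
  choose n₀ hn₀ using fun v => shrink_vertex X hc hc1 (hG v) (hH v) hρ0.le hρ1 I hI
    (fun i e => Bool.rec (atV α v e) (atV β v e) i) (S v) η hη0
  set n₁ : ℕ := ∑ v, n₀ v
  refine ⟨min η (1 / ((n₁ : ℝ) + 1)), lt_min hη0 (by positivity), fun n ψ hψ => ?_⟩
  have hn : (0 : ℝ) ≤ n := by positivity
  by_cases hw : disc I α β (m := fun _ => n) ψ = 0
  · exact ⟨ψ, fun v s _ => by rw [M.D_self]; positivity, hw⟩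
  have h1 := (one_le_of_integral hw (disc_integral α β ψ ψ)).trans hψ
  have h2 : n₁ ≤ n := by
    have h3 := h1.trans (mul_le_mul_of_nonneg_right (min_le_right _ _) hn)
    rw [one_div, inv_mul_eq_div, le_div_iff₀ (by positivity)] at h3
    have : (n₁ : ℝ) ≤ n := by linarith
    exact_mod_cast this
  replace hψ := hψ.trans (mul_le_mul_of_nonneg_right (min_le_left _ _) hn)
  choose a b h u π l d1 d2 d3 using fun v => hn₀ v n ((Finset.single_le_sum
    (f := fun v => n₀ v) (fun _ _ => Nat.zero_le _) (mem_univ v)).trans h2) (ψ v)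
  obtain ⟨m, χ, hχ1, hχ2⟩ := hC a π
  have h4 : ∑ j, ‖disc I α β π j‖ ≤ (1 + 2 * N) * (η * n) := by
    have h5 : ∀ j, ‖disc I α β π j‖ ≤ ‖disc I α β (m := fun _ => n) ψ j‖ + 2 * (η * n) := by
      intro j
      have e1 := d3 (o j.1) false j.1 j.2
      have e2 := d3 (t j.1) true j.1 j.2
      simp only [atV_self] at e1 e2
      have e3 : disc I α β π j = ((1 - ρ : ℝ) : ℂ) * disc I α β (m := fun _ => n) ψ j +
          (((I j.1).c ((π (o j.1)).comp (α j.1)) j.2 -
            (1 - ρ) * (I j.1).c ((ψ (o j.1)).comp (α j.1)) j.2) -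
          ((I j.1).c ((π (t j.1)).comp (β j.1)) j.2 -
            (1 - ρ) * (I j.1).c ((ψ (t j.1)).comp (β j.1)) j.2)) := by
        simp only [disc]
        push_cast
        ring
      rw [e3]
      refine (norm_add_le _ _).trans (add_le_add ?_ ((norm_sub_le _ _).trans (by linarith)))
      rw [norm_mul, Complex.norm_real, Real.norm_of_nonneg (by linarith)]
      nlinarith [norm_nonneg (disc I α β (m := fun _ => n) ψ j)]
    refine (Finset.sum_le_sum fun j _ => h5 j).trans ?_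
    rw [Finset.sum_add_distrib, Finset.sum_const, card_univ, nsmul_eq_mul, ← hN]
    linarith
  have h6 : ∀ v, m v ≤ b v := by
    intro v
    have e1 := (hχ2 v).trans (mul_le_mul_of_nonneg_left h4 hC0)
    have e2 := (abs_le.1 (d2 v)).1
    have e3 : ρ * n = C * ((1 + 2 * N) * (η * n)) + η * n := by rw [← hη1]; ring
    have : (m v : ℝ) ≤ b v := by linarith
    exact_mod_cast this
  have h7 : ∀ v, m v + (b v - m v) = b v := fun v => Nat.add_sub_cancel' (h6 v)
  refine ⟨fun v => Model.glue (h v) (u v) (π v) (Model.glue (h7 v) 1 (χ v) 1), fun v s hs => ?_,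
    ?_⟩
  · have e1 := M.D_tri (ψ v s) (Model.glue (h v) (u v) (π v) (l v) s)
      (Model.glue (h v) (u v) (π v) (Model.glue (h7 v) 1 (χ v) 1) s)
    have e2 := d1 v s hs
    have e3 := M.D_le (l v s) (Model.glue (h7 v) 1 (χ v) 1 s)
    have e4 := (abs_le.1 (d2 v)).2
    rw [Model.glue_apply (h v) (u v) (π v) (Model.glue (h7 v) 1 (χ v) 1),
      Model.glue_apply (h v) (u v) (π v) (l v), M.D_conj, M.D_bs, M.D_self,
      ← Model.glue_apply, ← Model.glue_apply] at e1
    have e5 := mul_le_mul_of_nonneg_right hη2 hn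
    have e6 := mul_le_mul_of_nonneg_right hρ2 hn
    nlinarith
  · have e1 := disc_glue α β hI (fun v => rfl) (fun _ => 1) π χ
    rw [hχ1] at e1
    rw [disc_glue α β hI h u π, disc_glue α β hI h7 (fun _ => 1) χ, ← add_assoc, hχ1, zero_add]
    funext j
    have e2 := disc_size α β e1 j.1
    have e3 : b (o j.1) - m (o j.1) = b (t j.1) - m (t j.1) := by
      have := h (o j.1)
      have := h (t j.1)
      omega
    rw [disc_one α β (fun v => b v - m v) j, e3]
    simp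

theorem match_seq [Finite E] [Finite V] [∀ e, Finite (H e)] [∀ v, Countable (G v)]
    (X : MExt M) (hI : ∀ e, HExt (I e)) (hC : Cancels I α β) {c : ℝ} (hc : 0 < c) (hc1 : c ≤ 1)
    (hG : ∀ v, M.Stable (G v)) (hH : ∀ v, Halves M (G v) c) (k : ℕ → ℕ)
    (ψ : ∀ n v, G v →* M.C (k n)) (x : ∀ n, E → M.C (k n))
    (hx : ∀ e h, Small k fun n =>
      M.D (x n e * ψ n (o e) (α e h) * (x n e)⁻¹) (ψ n (t e) (β e h))) :
    ∃ (χ : ∀ n v, G v →* M.C (k n)) (y : ∀ n, E → M.C (k n)),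
      (∀ v g, Small k fun n => M.D (ψ n v g) (χ n v g)) ∧
      (∀ e, Small k fun n => M.D (x n e) (y n e)) ∧
      ∀ n e h, y n e * χ n (o e) (α e h) * (y n e)⁻¹ = χ n (t e) (β e h) := by
  classical
  have := Fintype.ofFinite E
  have hconj : ∀ e n (u : M.C n) (a : H e →* M.C n),
      (I e).c ((MulAut.conj u).toMonoidHom.comp a) = (I e).c a := by
    intro e n u a
    funext j
    rw [← X.glue_right u a 1, (hI e).c_glue, HInv.c_one]
    simp
  have h1 : Small k fun n => ∑ j, ‖disc I α β (m := fun _ => k n) (ψ n) j‖ := by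
    refine IsLittleO.fun_sum fun j _ => ?_
    refine ((I j.1).cont k
      (fun n => (MulAut.conj (x n j.1)).toMonoidHom.comp ((ψ n (o j.1)).comp (α j.1)))
      (fun n => (ψ n (t j.1)).comp (β j.1)) (hx j.1) j.2).congr_left fun n => ?_
    rw [hconj]
    rfl
  choose S hS using fun v => exists_exhaust (G v)
  obtain ⟨j, χ, hj, hχ⟩ := diag (X := fun n => ∀ v, G v →* M.C (k n))
    (fun n j χ => (j ≠ 0 → ∀ v, ∀ s ∈ S v j, M.D (ψ n v s) (χ v s) ≤ 1 / ((j : ℝ) + 1) * k n) ∧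
      disc I α β (m := fun _ => k n) χ = 0)
    (fun n => ⟨fun _ => 1, fun h => absurd rfl h, by
      funext j
      simpa using disc_one α β (I := I) (fun _ => k n) j⟩)
    (fun j => by
      obtain ⟨δ, hδ, h⟩ := match_fin α β X hI hC hc hc1 hG hH (fun v => S v j)
        (ε := 1 / ((j : ℝ) + 1)) (by positivity)
      filter_upwards [Small.ev h1 hδ] with n hn
      obtain ⟨χ, g1, g2⟩ := h (k n) (ψ n) hn
      exact ⟨χ, fun _ => g1, g2⟩)
  have h2 : ∀ v g, Small k fun n => M.D (ψ n v g) (χ n v g) := by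
    intro v g
    obtain ⟨j₀, hj₀⟩ := hS v g
    exact small_of_level hj (fun _ => M.D_nonneg _ _) (j₀ + 1) fun n hn =>
      (hχ n).1 (by omega) v g (hj₀ _ (by omega))
  choose u hu1 hu2 using fun e => (I e).rigid k
    (fun n => (MulAut.conj (x n e)).toMonoidHom.comp ((χ n (o e)).comp (α e)))
    (fun n => (χ n (t e)).comp (β e))
    (fun n => by
      rw [hconj]
      funext j
      exact sub_eq_zero.1 (congrFun (hχ n).2 ⟨e, j⟩))
    (fun h => by
      refine Model.small_tri ?_ (Model.small_tri (hx e h) (h2 _ _))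
      refine (Model.small_symm (h2 _ (α e h))).congr_left fun n => ?_
      exact (M.D_conj (x n e) _ _).symm)
  refine ⟨χ, fun n e => u e n * x n e, h2, fun e => ?_, fun n e h => ?_⟩
  · refine (hu2 e).congr_left fun n => ?_
    rw [M.D_symm (x n e), ← M.D_mul_right (x n e), one_mul]
  · rw [← MonoidHom.comp_apply (χ n (t e)), ← hu1 e n h]
    simp only [MonoidHom.comp_apply, MulEquiv.coe_toMonoidHom, MulAut.conj_apply]
    group

end Graph

end Pool.Agent.Lib.AG6
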