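import Pool.Agent.Lib.AG6.Sign
import Pool.Agent.Lib.AG6.Match
import Pool.Agent.Lib.AG6.Defs
import Pool.Agent.Lib.MP_098da0_al.PermModel

namespace Pool.Agent.Lib.AG6

open Finset Equiv Pool.Agent.Lib.MP_098da0_al

theorem permExt : MExt permModel where
  comm {a b n} h h' := by
    refine ⟨(sumE h').symm.trans ((Equiv.sumComm _ _).trans (sumE h)), fun x y => ?_⟩
    rw [eq_mul_inv_iff_mul_eq]
    change pbs h (x, y) * _ = _ * pbs h' (y, x)
    ext i : 1
    rcases sumE_cases h' i with ⟨i, rfl⟩ | ⟨i, rfl⟩ <;> simp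
  unit {n} h x y := by
    change pbs h (x, y) = x
    ext i : 1
    have e : ∀ i : Fin n, sumE h (Sum.inl i) = i := fun i => Fin.ext (by simp)
    rw [← e i, pbs_inl, e, e]

theorem cnt_glue {H : Type} [Group H] {a b n : ℕ} (h : a + b = n) (u : Perm (Fin n))
    (π : H →* Perm (Fin a)) (l : H →* Perm (Fin b)) {ψ : H →* Perm (Fin n)}
    (e : ∀ g, ψ g = u * pbs h (π g, l g) * u⁻¹) (Q : Set H → Prop) :
    (cnt fun x => Q (stab ψ x)) = (cnt fun x => Q (stab π x)) + cnt fun x => Q (stab l x) := by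
  rw [← cnt_equiv u, cnt_sumE h]
  congr 1
  · exact cnt_congr fun i => by rw [show stab ψ _ = stab π i by ext k; simp [stab, e]]
  · exact cnt_congr fun i => by rw [show stab ψ _ = stab l i by ext k; simp [stab, e]]

theorem permHExt (H : Type) [Group H] [Finite H] : HExt (permInv H) where
  c_glue h u π l B :=
    (congrArg (Nat.cast : ℕ → ℂ) (cnt_glue h u π l (fun _ => rfl) fun S => S = B)).trans
      (Nat.cast_add _ _)
  c_le {n} α B := by
    change ‖((cnt fun x : Fin n => stab α x = B : ℕ) : ℂ)‖ ≤ n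
    rw [Complex.norm_natCast]
    exact_mod_cast (cnt_le_card _).trans (Fintype.card_fin n).le

theorem amenable_cnt {G : Type} [Group G] (h : Amenable G) (S : Finset G) {ε : ℝ} (hε : 0 < ε) :
    ∃ F : Finset G, F.Nonempty ∧
      ∀ s ∈ S, (cnt (fun f : F => s * f.1 ∉ F) : ℝ) ≤ ε * F.card := by
  obtain ⟨F, h1, h2⟩ := h S ε hε
  refine ⟨F, h1, fun s hs => le_trans (le_of_eq ?_) (h2 s hs)⟩
  rw [cnt_eq_card, ← Nat.card_coe_set_eq]
  exact congrArg _ (Nat.card_congr
    (Equiv.subtypeSubtypeEquivSubtypeInter (fun f => f ∈ F) fun f => s * f ∉ F))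

theorem sum_cnt_and {α β : Type} [Fintype α] [Fintype β] (g : α → β) (Q : α → Prop) :
    ∑ y, cnt (fun a => g a = y ∧ Q a) = cnt Q := by
  classical
  unfold cnt
  rw [Finset.sum_comm]
  refine Finset.sum_congr rfl fun a _ => ?_
  by_cases h : Q a <;> simp [h]

theorem exists_ext {A X : Type} [Finite A] {e : A → X} (he : Function.Injective e) (σ : Perm X) :
    ∃ τ : Perm A, ∀ i i', σ (e i) = e i' → τ i = i' := by
  obtain ⟨τ, hτ⟩ := Perm.exists_extending_pair (fun i : {i // ∃ i', σ (e i) = e i'} => i.1)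
    (fun i => i.2.choose) Subtype.val_injective (fun i j hij => by
      have h1 := i.2.choose_spec
      have h2 := j.2.choose_spec
      have h3 : i.2.choose = j.2.choose := hij
      rw [h3, ← h2] at h1
      exact Subtype.ext (he (σ.injective h1)))
  refine ⟨τ, fun i i' h => (hτ ⟨i, i', h⟩).trans (he ?_)⟩
  exact (Exists.choose_spec (⟨i', h⟩ : ∃ i', σ (e i) = e i')).symm.trans h

theorem perm_cut {n : ℕ} (P : Fin n → Prop) :
    ∃ (a b : ℕ) (h : a + b = n) (u : Perm (Fin n))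
      (f : Perm (Fin n) → Perm (Fin a) × Perm (Fin b)), cnt P = a ∧ cnt (fun x => ¬ P x) = b ∧
      ∀ σ, cnt (fun x => σ x ≠ (u * pbs h (f σ) * u⁻¹) x) ≤ cnt fun x => ¬ (P x ↔ P (σ x)) := by
  obtain ⟨a, b, h, u, -, -, -, h1, h2⟩ := perm_split (1 : Unit →* Perm (Fin n)) P (by simp)
  choose f hf using exists_ext (e := fun i => u (sumE h (Sum.inl i))) fun i j hij => by
    simpa using hij
  choose g hg using exists_ext (e := fun i => u (sumE h (Sum.inr i))) fun i j hij => by
    simpa using hij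
  refine ⟨a, b, h, u, fun σ => (f σ, g σ), ?_, ?_, fun σ => cnt_mono fun x hx hP => hx ?_⟩
  · rw [← cnt_equiv u, cnt_sumE h, cnt_true h1, cnt_false h2]
    simp
  · rw [← cnt_equiv u, cnt_sumE h, cnt_true h2, cnt_false fun i hi => hi (h1 i)]
    simp
  · obtain ⟨x, rfl⟩ := u.surjective x
    obtain ⟨y, hy⟩ := u.surjective (σ (u x))
    rcases sumE_cases h x with ⟨i, rfl⟩ | ⟨i, rfl⟩ <;>
      rcases sumE_cases h y with ⟨j, rfl⟩ | ⟨j, rfl⟩
    · simp [hf σ i j hy.symm, hy]
    · exact absurd (hy ▸ hP.1 (h1 i)) (h2 j)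
    · exact absurd (hP.2 (hy ▸ h1 j)) (h2 i)
    · simp [hg σ i j hy.symm, hy]

theorem sqrt_sub_sq_le {p q r : ℝ} (hp : 0 ≤ p) (hq : 0 ≤ q) (hr : 0 ≤ r) (h : p ≤ q + r) :
    (√p - √q) ^ 2 ≤ q - p + 2 * r := by
  have h1 := Real.mul_self_sqrt hp
  have h2 := Real.mul_self_sqrt hq
  have h3 := Real.sqrt_nonneg p
  have h4 := Real.sqrt_nonneg q
  rcases le_total p q with g | g
  · nlinarith [mul_le_mul_of_nonneg_left (Real.sqrt_le_sqrt g) h3]
  · nlinarith [mul_le_mul_of_nonneg_left (Real.sqrt_le_sqrt g) h4]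

theorem perm_halves {G : Type} [Group G] (hG : Amenable G) :
    Halves permModel G (1 / 100000) := by
  classical
  intro S ε hε
  obtain ⟨K, η, hK, hη, hKη⟩ := exists_param S.card hε
  obtain ⟨F, hF, hF'⟩ := amenable_cnt hG S (ε := η / (2 * (S.card + 1))) (by positivity)
  have hL : (0 : ℝ) < F.card := by exact_mod_cast hF.card_pos
  refine ⟨150000000 * F.card, fun n hn (ψ : G →* Perm (Fin n)) => ?_⟩
  let c : Fin n → Fin n → ℕ := fun x y => cnt fun f : F => (ψ f)⁻¹ x = y
  have c1 : ∀ x, ∑ y, (c x y : ℝ) = F.card := fun x => by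
    have := sum_cnt_fiber fun f : F => (ψ f)⁻¹ x
    rw [Fintype.card_coe] at this
    exact_mod_cast this
  have c2 : ∀ y, ∑ x, (c x y : ℝ) = F.card := fun y => by
    have := sum_cnt_fiber fun f : F => ψ f y
    rw [Fintype.card_coe] at this
    rw [← this, Nat.cast_sum]
    exact Finset.sum_congr rfl fun x _ => congrArg _
      (cnt_congr fun f => by rw [Perm.inv_eq_iff_eq, eq_comm])
  let h : Fin n → Fin n → ℝ := fun y x => √(c x y / F.card)
  have h1 : ∀ y x, h y x ^ 2 = c x y / F.card := fun y x => Real.sq_sqrt (by positivity)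
  have h2 : ∀ x, ∑ y, h y x ^ 2 = 1 := fun x => by
    simp only [h1, ← Finset.sum_div, c1, div_self hL.ne']
  have h3 : ∀ y, (∑ x, h y x) ^ 2 ≤ F.card := fun y => by
    have e1 : ∑ x, h y x ≤ √F.card := by
      have e2 : ∀ x, h y x ≤ √F.card * (c x y / F.card) := fun x => by
        refine Real.sqrt_le_iff.2 ⟨by positivity, ?_⟩
        rw [mul_pow, Real.sq_sqrt hL.le]
        have : (c x y : ℝ) ≤ c x y ^ 2 := by exact_mod_cast Nat.le_self_pow two_ne_zero _
        rw [show (F.card : ℝ) * (c x y / F.card) ^ 2 = c x y ^ 2 / F.card by field_simp]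
        gcongr
      refine (Finset.sum_le_sum fun x _ => e2 x).trans (le_of_eq ?_)
      rw [← Finset.mul_sum, ← Finset.sum_div, c2, div_self hL.ne', mul_one]
    rw [← Real.sq_sqrt hL.le]
    exact pow_le_pow_left₀ (Finset.sum_nonneg fun _ _ => Real.sqrt_nonneg _) e1 2
  have h4 : ∀ s ∈ S, ∀ x, ∑ y, (h y x - h y (ψ s x)) ^ 2 ≤ η / (S.card + 1) := fun s hs x => by
    let r : Fin n → ℕ := fun y => cnt fun f : F => (ψ f)⁻¹ x = y ∧ s * f.1 ∉ F
    have e1 : ∀ y, c x y ≤ c (ψ s x) y + r y := fun y => by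
      have e2 := cnt_add_not (fun f : F => (ψ f)⁻¹ x = y) fun f => s * f.1 ∈ F
      have e3 : cnt (fun f : F => (ψ f)⁻¹ x = y ∧ s * f.1 ∈ F) ≤ c (ψ s x) y :=
        cnt_le_of_injOn (fun f => if hf : s * f.1 ∈ F then ⟨_, hf⟩ else f)
          (fun f hf => by simp [hf.2, ← hf.1])
          (fun f f' hf hf' e => by
            simp only [dif_pos hf.2, dif_pos hf'.2, Subtype.mk.injEq, mul_right_inj] at e
            exact Subtype.ext e)
      exact e2.le.trans (Nat.add_le_add_right e3 _)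
    have e4 : ∑ y, (r y : ℝ) ≤ η / (2 * (S.card + 1)) * F.card := by
      refine le_trans (le_of_eq ?_) (hF' s hs)
      exact_mod_cast sum_cnt_and (fun f : F => (ψ f)⁻¹ x) fun f => s * f.1 ∉ F
    have e5 := Finset.sum_le_sum fun y (_ : y ∈ univ) => sqrt_sub_sq_le
      (p := c x y / F.card) (q := c (ψ s x) y / F.card) (r := r y / F.card)
      (by positivity) (by positivity) (by positivity) (by
        rw [← add_div]
        gcongr
        exact_mod_cast e1 y)
    refine e5.trans ?_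
    simp only [Finset.sum_add_distrib, Finset.sum_sub_distrib, ← Finset.mul_sum,
      ← Finset.sum_div, c1, sub_self, zero_add]
    rw [← div_le_iff₀ hL] at e4
    have : η / (S.card + 1) = 2 * (η / (2 * (S.card + 1))) := by field_simp
    linarith
  let W : G → Fin n → Fin n → ℝ := fun s i j => if ψ s i = j then 1 else 0
  have pq : ∀ i : Fin n, Quad fun a : Fin n → ℝ => a i ^ 2 := fun i =>
    quad_sq.comp (Pi.evalAddMonoidHom (fun _ => ℝ) i)
  obtain ⟨Y, -, hY⟩ := exists_sign (⊤ : AddSubgroup (Fin n → ℝ))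
    (fun h a => ∑ i, h i ^ 2 * a i ^ 2) (fun a => ∑ i, a i ^ 4) (by simp)
    (fun h => Quad.sum _ fun i => (pq i).mul _)
    (fun a _ h _ => by
      simp only [Finset.mul_sum, ← Finset.sum_add_distrib, Pi.add_apply, Pi.sub_apply]
      exact Finset.sum_le_sum fun i _ => by nlinarith [sq_nonneg (h i ^ 2)])
    (fun a _ h _ => Finset.sum_congr rfl fun i _ => mul_comm _ _) h (fun _ => trivial) univ
    (fun a => 3 / F.card * (∑ i, a i) ^ 2 +
      3 / η * ∑ s ∈ S, ∑ i, ∑ j, (a i - a j) ^ 2 * W s i j - 30 * ∑ i, a i ^ 2)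
    ((Quad.add (Quad.mul ⟨by simp, fun a h => by
        simp only [Pi.add_apply, Pi.sub_apply, Finset.sum_add_distrib, Finset.sum_sub_distrib]
        ring⟩ _)
      (Quad.mul (Quad.sum _ fun s => Quad.sum _ fun i => Quad.sum _ fun j => ⟨by simp,
        fun a h => by simp only [Pi.add_apply, Pi.sub_apply]; ring⟩) _)).sub
      ((Quad.sum _ pq).mul _))
  have k1 : ∑ y, ∑ y', ∑ i, h y i ^ 2 * h y' i ^ 2 = n := by
    simp only [Finset.sum_comm (f := fun y' i => h _ i ^ 2 * h y' i ^ 2), ← Finset.mul_sum, h2,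
      mul_one]
    rw [Finset.sum_comm]
    simp [h2]
  have k2 : ∑ y, ∑ i, h y i ^ 2 = n := by
    rw [Finset.sum_comm]
    simp [h2]
  have k3 : ∑ y, (∑ i, h y i) ^ 2 ≤ F.card * n := by
    simpa [mul_comm] using Finset.sum_le_sum fun y (_ : y ∈ univ) => h3 y
  have k4 : ∑ y, ∑ s ∈ S, ∑ i, ∑ j, (h y i - h y j) ^ 2 * W s i j ≤ η * n := by
    simp only [W, mul_ite, mul_one, mul_zero, Finset.sum_ite_eq, mem_univ, if_true]
    rw [Finset.sum_comm]
    have : ∀ s ∈ S, ∑ y, ∑ i, (h y i - h y (ψ s i)) ^ 2 ≤ η / (S.card + 1) * n := fun s hs => by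
      rw [Finset.sum_comm]
      simpa [mul_comm] using Finset.sum_le_sum fun i (_ : i ∈ univ) => h4 s hs i
    refine (Finset.sum_le_sum this).trans ?_
    rw [Finset.sum_const, nsmul_eq_mul, ← mul_assoc]
    refine mul_le_mul_of_nonneg_right ?_ (by positivity)
    rw [← mul_div_assoc, div_le_iff₀ (by positivity)]
    nlinarith
  obtain ⟨θ, t1, t2, t3⟩ := thresh Y S W (fun s i j => by simp only [W]; split_ifs <;> norm_num)
    (fun s => by simp [W]) hL hη hK (by exact_mod_cast hn) (hY.trans (by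
      simp only [Finset.sum_add_distrib, Finset.sum_sub_distrib, ← Finset.mul_sum, k1, k2]
      have e1 := mul_le_mul_of_nonneg_left k3 (by positivity : 0 ≤ 3 / (F.card : ℝ))
      have e2 := mul_le_mul_of_nonneg_left k4 (by positivity : 0 ≤ 3 / η)
      rw [← mul_assoc, div_mul_cancel₀ _ hL.ne'] at e1
      rw [← mul_assoc, div_mul_cancel₀ _ hη.ne'] at e2
      linarith))
  obtain ⟨a, b, hab, u, f, ha, hb, hf⟩ := perm_cut fun i => θ < Y i
  refine ⟨a, b, hab, u, fun g => f (ψ g), ha ▸ t1, hb ▸ t2, fun s hs => ?_⟩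
  refine (Nat.cast_le.2 (hf (ψ s))).trans (le_trans ?_
    (t3.trans (mul_le_mul_of_nonneg_right hKη (by positivity))))
  refine le_trans (le_of_eq ?_) (Finset.single_le_sum (f := fun s => ∑ i, ∑ j,
    if (θ < Y i ↔ θ < Y j) then 0 else W s i j) (fun s _ => Finset.sum_nonneg fun i _ =>
      Finset.sum_nonneg fun j _ => by simp only [W]; split_ifs <;> norm_num) hs)
  unfold cnt
  push_cast
  refine Finset.sum_congr rfl fun i _ => ?_
  rw [Finset.sum_eq_single (ψ s i) (fun j _ hj => by simp [W, hj.symm]) (by simp)]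
  by_cases hi : (θ < Y i ↔ θ < Y (ψ s i)) <;> simp [W, hi]

end Pool.Agent.Lib.AG6
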