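import Pool.Agent.Lib.AG6.HSR
import Pool.Agent.Lib.AG6.PermG

namespace Pool.Agent.Lib.AG6

open Finset Matrix Pool.Agent.Lib.MP_098da0_al

variable {G : Type} [Group G]

theorem hs_roots {n : ℕ} (ψ : G →* Uni n) {F : Finset G} (hF : F.Nonempty) :
    ∃ h : Fin n → Mat n, (∀ x, (h x)ᴴ = h x) ∧ ∑ x, h x * h x = 1 ∧
      (∀ x, ‖(h x).trace‖ ^ 2 ≤ fro2 (h x) * F.card) ∧ ∀ s,
        ∑ x, fro2 (h x * (ψ s).1 - (ψ s).1 * h x) ≤
          8 * ((cnt (fun f : F => s * f.1 ∉ F) : ℝ) / F.card) * n := by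
  classical
  have hL : (0 : ℝ) < F.card := by exact_mod_cast hF.card_pos
  let c : ℂ := ((√F.card)⁻¹ : ℝ)
  have hc : ‖c‖ ^ 2 = (F.card : ℝ)⁻¹ := by
    rw [Complex.norm_real, Real.norm_eq_abs, sq_abs, inv_pow, Real.sq_sqrt hL.le]
  have hc' : c * star c = (F.card : ℂ)⁻¹ := by
    rw [Complex.star_def, Complex.mul_conj', ← Complex.ofReal_pow, hc]
    simp
  let V : Fin n → Matrix (Fin n) F ℂ := fun x => c • Matrix.of fun i (f : F) => (ψ f).1 i x
  have D := fun x => (nonempty_diag (Q := V x * (V x)ᴴ) (by simp)).some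
  refine ⟨fun x => rt (D x), fun x => rt_herm _, ?_, fun x => ?_, fun s => ?_⟩
  · simp only [rt_sq rfl]
    have e : ∑ x, V x * (V x)ᴴ = (F.card : ℂ)⁻¹ • ∑ f : F, (ψ f).1 * (ψ f).1ᴴ := by
      simp only [V, conjTranspose_smul, Matrix.smul_mul, Matrix.mul_smul, smul_smul,
        ← Finset.smul_sum, mul_comm (star c), hc']
      congr 1
      ext i j
      simp only [Matrix.sum_apply, Matrix.mul_apply, conjTranspose_apply, of_apply]
      exact Finset.sum_comm
    simp only [e, uni_mul_star, Finset.sum_const, card_univ, Fintype.card_coe]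
    rw [← Nat.cast_smul_eq_nsmul ℂ, smul_smul, inv_mul_cancel₀ (by exact_mod_cast hL.ne'), one_smul]
  · simpa using trace_rt (D := D x) rfl
  · obtain ⟨τ, hτ⟩ := exists_ext (e := (Subtype.val : F → G)) Subtype.val_injective
      (Equiv.mulLeft s)
    have e1 : ∀ x, fro2 (rt (D x) * (ψ s).1 - (ψ s).1 * rt (D x)) ≤
        2 * fro2 ((V x).submatrix id τ - (ψ s).1 * V x) := fun x =>
      araki rfl (by rw [conjTranspose_submatrix, submatrix_mul_equiv, submatrix_id_id])
        (uni_star_mul _) (uni_mul_star _)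
    have e2 : ∀ x, (V x).submatrix id τ - (ψ s).1 * V x =
        c • Matrix.of fun i (f : F) => ((ψ (τ f)).1 - (ψ (s * f)).1) i x := fun x => by
      ext i f
      simp [V, Matrix.mul_apply, mul_sub, Finset.mul_sum, mul_left_comm]
    have e3 : ∑ x, fro2 ((V x).submatrix id τ - (ψ s).1 * V x) =
        (F.card : ℝ)⁻¹ * ∑ f : F, fro2 ((ψ (τ f)).1 - (ψ (s * f)).1) := by
      simp only [e2, fro2_smul, hc, ← Finset.mul_sum]
      congr 1
      simp only [fro2, of_apply]
      rw [Finset.sum_comm, Finset.sum_comm (s := (univ : Finset F))]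
      exact Finset.sum_congr rfl fun i _ => Finset.sum_comm
    have e4 : ∑ f : F, fro2 ((ψ (τ f)).1 - (ψ (s * f)).1) ≤
        (cnt (fun f : F => s * f.1 ∉ F) : ℝ) * (4 * n) := by
      unfold cnt
      push_cast
      rw [Finset.sum_mul]
      refine Finset.sum_le_sum fun f _ => ?_
      by_cases hf : s * f.1 ∈ F
      · simp [hf, hτ f ⟨_, hf⟩ rfl]
      · rw [if_pos hf, one_mul]
        exact hsModel.D_le (ψ (τ f)) (ψ (s * f))
    refine (Finset.sum_le_sum fun x _ => e1 x).trans ?_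
    rw [← Finset.mul_sum, e3, div_eq_inv_mul]
    have := mul_le_mul_of_nonneg_left e4 (inv_nonneg.2 hL.le)
    linarith

theorem hs_halves (hG : Amenable G) : Halves hsModel G (1 / 100000) := by
  classical
  intro S ε hε
  obtain ⟨K, η, hK, hη, hKη⟩ := exists_param S.card (ε := ε / 5) (by positivity)
  obtain ⟨F, hF, hF'⟩ := amenable_cnt hG S (ε := η / (8 * (S.card + 1))) (by positivity)
  have hL : (0 : ℝ) < F.card := by exact_mod_cast hF.card_pos
  refine ⟨150000000 * F.card, fun n hn (ψ : G →* Uni n) => ?_⟩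
  have hn' : 150000000 * (F.card : ℝ) ≤ n := by exact_mod_cast hn
  have hn0 : (0 : ℝ) < n := by linarith
  obtain ⟨h, h0, h1, h3, h4⟩ := hs_roots ψ hF
  obtain ⟨Y, hY0, hY⟩ := exists_sign (selfAdjoint (Mat n))
    (fun h a => fro2 (h * a)) (fun a => fro2 (a * a)) (by simp)
    (fun h => quad_fro2.comp (AddMonoidHom.mulLeft h)) (fun a ha h hh => fro2_four ha hh)
    (fun a (ha : aᴴ = a) h (hh : hᴴ = h) => by
      rw [← fro2_conjTranspose, conjTranspose_mul, ha, hh]) h h0 univ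
    (fun a => 3 / F.card * ‖a.trace‖ ^ 2 +
      3 / η * ∑ s ∈ S, fro2 (a * (ψ s).1 - (ψ s).1 * a) - 30 * fro2 a)
    ((Quad.add ((quad_norm.comp (traceAddMonoidHom _ _)).mul _)
      (Quad.mul (Quad.sum _ fun s => quad_fro2.comp
        (AddMonoidHom.mulRight (ψ s).1 - AddMonoidHom.mulLeft (ψ s).1)) _)).sub (quad_fro2.mul _))
  have k2 : ∑ y, fro2 (h y) = n := by
    simp only [fro2_eq_re_trace, h0]
    rw [← Complex.re_sum, ← trace_sum, h1]
    simp
  have k1 : ∑ y, ∑ y', fro2 (h y * h y') = n := by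
    rw [Finset.sum_comm, ← k2]
    refine Finset.sum_congr rfl fun y _ => ?_
    simp only [fro2_eq_re_trace, conjTranspose_mul, h0]
    rw [← Complex.re_sum, ← trace_sum]
    have : ∀ x, h y * h x * (h x * h y) = h y * (h x * h x) * h y := fun x => by
      simp only [Matrix.mul_assoc]
    simp only [this, ← Finset.mul_sum, ← Finset.sum_mul, h1, mul_one]
  have k3 : ∑ y, ‖(h y).trace‖ ^ 2 ≤ F.card * n := by
    rw [← k2, mul_comm, Finset.sum_mul]
    exact Finset.sum_le_sum fun y _ => h3 y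
  have k4 : ∑ y, ∑ s ∈ S, fro2 (h y * (ψ s).1 - (ψ s).1 * h y) ≤ η * n := by
    rw [Finset.sum_comm]
    have : ∀ s ∈ S, ∑ y, fro2 (h y * (ψ s).1 - (ψ s).1 * h y) ≤ η / (S.card + 1) * n :=
      fun s hs => (h4 s).trans (mul_le_mul_of_nonneg_right (by
        have e1 := (div_le_iff₀ hL).2 (hF' s hs)
        have : η / (S.card + 1) = 8 * (η / (8 * (S.card + 1))) := by field_simp
        linarith) hn0.le)
    refine (Finset.sum_le_sum this).trans ?_
    rw [Finset.sum_const, nsmul_eq_mul, ← mul_assoc]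
    refine mul_le_mul_of_nonneg_right ?_ (by positivity)
    rw [← mul_div_assoc, div_le_iff₀ (by positivity)]
    nlinarith
  obtain ⟨D⟩ := nonempty_diag (Q := Y) hY0
  let W : G → Fin n → Fin n → ℝ := fun s i j => ‖(D.Vᴴ * (ψ s).1 * D.V) i j‖ ^ 2
  have m0 : ∀ (f : ℝ → ℝ) s, fro2 (D.fc (fun x => f x) * (ψ s).1 - (ψ s).1 * D.fc fun x => f x) =
      ∑ i, ∑ j, (f (D.μ i) - f (D.μ j)) ^ 2 * W s i j := fun f s => by
    rw [fro2_comm]
    refine Finset.sum_congr rfl fun i _ => Finset.sum_congr rfl fun j _ => ?_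
    rw [mul_comm _ ((f (D.μ j) : ℝ) : ℂ), ← sub_mul, norm_mul, mul_pow, ← Complex.ofReal_sub,
      Complex.norm_real, Real.norm_eq_abs, sq_abs]
  have m1 : fro2 (Y * Y) = ∑ i, D.μ i ^ 4 := by
    rw [(congrArg (· * Y) D.fc_id.symm).trans (D.fc_mul_self _), D.fro2_fc]
    exact Finset.sum_congr rfl fun i _ => by
      rw [norm_mul, Complex.norm_real, Real.norm_eq_abs, abs_mul_abs_self]; ring
  have m2 : fro2 Y = ∑ i, D.μ i ^ 2 := by
    refine (congrArg fro2 D.fc_id.symm).trans ?_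
    simp [D.fro2_fc]
  have m3 : ‖Y.trace‖ ^ 2 = (∑ i, D.μ i) ^ 2 := by
    rw [(congrArg trace D.fc_id.symm).trans (D.trace_fc _), ← Complex.ofReal_sum,
      Complex.norm_real, Real.norm_eq_abs, sq_abs]
  have m4 := m0 fun x => x
  rw [D.fc_id] at m4
  obtain ⟨θ, t1, t2, t3⟩ := thresh D.μ S W (fun s i j => sq_nonneg _)
    (fun s => by
      change fro2 (D.Vᴴ * (ψ s).1 * D.V) ≤ n
      rw [fro2_mul_right D.h2, fro2_mul_left (by simpa using D.h2),
        fro2_of_isometry (uni_star_mul _), Fintype.card_fin]) hL hη hK hn' (by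
      simp only [← m1, ← m2, ← m3, ← m4]
      refine hY.trans ?_
      simp only [Finset.sum_add_distrib, Finset.sum_sub_distrib, ← Finset.mul_sum, k1, k2]
      have e1 := mul_le_mul_of_nonneg_left k3 (by positivity : 0 ≤ 3 / (F.card : ℝ))
      have e2 := mul_le_mul_of_nonneg_left k4 (by positivity : 0 ≤ 3 / η)
      rw [← mul_assoc, div_mul_cancel₀ _ hL.ne'] at e1
      rw [← mul_assoc, div_mul_cancel₀ _ hη.ne'] at e2
      linarith)
  have p0 := m0 fun x => if θ < x then 1 else 0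
  set p := D.fc fun x => ((if θ < x then 1 else 0 : ℝ) : ℂ) with hp
  obtain ⟨a, b, hab, u, hu⟩ := proj_split (p := p) (by
    rw [hp, D.fc_conjTranspose]
    exact D.fc_congr fun i => by simp) (by
    rw [hp, D.fc_mul]
    exact D.fc_congr fun i => by split_ifs <;> simp)
  have ha : cnt (fun i => θ < D.μ i) = a := by
    have := congrArg trace hu
    rw [trace_mul_cycle, uni_star_mul, Matrix.one_mul, trace_bl, hp, D.trace_fc, trace_one,
      trace_zero, add_zero, Fintype.card_fin] at this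
    apply Nat.cast_injective (R := ℂ)
    rw [← this, cnt]
    push_cast
    exact Finset.sum_congr rfl fun i _ => by split_ifs <;> simp
  have hb : cnt (fun i => ¬ θ < D.μ i) = b := by
    have := cnt_add_not (fun _ : Fin n => True) fun i => θ < D.μ i
    simp only [true_and, cnt_true fun _ : Fin n => trivial, Fintype.card_fin] at this
    omega
  choose f hf using fun σ : Uni n => hs_cut2 hab σ (η := ε / 5 * n) (by positivity)
  refine ⟨a, b, hab, u, fun g => f (u⁻¹ * ψ g * u), ha ▸ t1, hb ▸ t2, fun s hs => ?_⟩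
  have q1 : hsModel.D (ψ s) (u * mbs hab (f (u⁻¹ * ψ s * u)) * u⁻¹) =
      fro2 ((u⁻¹ * ψ s * u).1 - (mbs hab (f (u⁻¹ * ψ s * u))).1) := by
    refine Eq.trans ?_ (hsModel.D_conj u (u⁻¹ * ψ s * u) (mbs hab (f (u⁻¹ * ψ s * u))))
    congr 1
    exact (by group : ψ s = u * (u⁻¹ * ψ s * u) * u⁻¹)
  have q2 : fro2 (bl hab 1 0 * (u⁻¹ * ψ s * u).1 - (u⁻¹ * ψ s * u).1 * bl hab 1 0) =
      fro2 (p * (ψ s).1 - (ψ s).1 * p) := by
    rw [← fro2_mul_left (uni_star_mul u), ← fro2_mul_right (U := u.1ᴴ) (by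
      simpa using uni_star_mul u), hu]
    congr 1
    change u.1 * (bl hab 1 0 * (u.1ᴴ * (ψ s).1 * u.1) - u.1ᴴ * (ψ s).1 * u.1 * bl hab 1 0) * u.1ᴴ = _
    simp only [Matrix.mul_sub, Matrix.sub_mul, Matrix.mul_assoc, uni_mul_star, Matrix.mul_one]
    rw [← Matrix.mul_assoc u.1 u.1ᴴ, uni_mul_star, Matrix.one_mul]
  have q3 : fro2 (p * (ψ s).1 - (ψ s).1 * p) ≤ ε / 5 * n := by
    refine le_trans ?_ (t3.trans (mul_le_mul_of_nonneg_right hKη hn0.le))
    refine le_trans (le_of_eq ?_) (Finset.single_le_sum (f := fun s => ∑ i, ∑ j,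
      if (θ < D.μ i ↔ θ < D.μ j) then 0 else W s i j) (fun s _ => Finset.sum_nonneg fun i _ =>
        Finset.sum_nonneg fun j _ => by split_ifs; exacts [le_rfl, sq_nonneg _]) hs)
    rw [p0]
    refine Finset.sum_congr rfl fun i _ => Finset.sum_congr rfl fun j _ => ?_
    by_cases hi : θ < D.μ i <;> by_cases hj : θ < D.μ j <;> simp [hi, hj]
  have q4 := hf (u⁻¹ * ψ s * u)
  refine q1.le.trans ?_
  linarith

end Pool.Agent.Lib.AG6
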