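import Pool.Agent.Lib.AG6.Sign
import Pool.Agent.Lib.MP_098da0_al.HSModel

namespace Pool.Agent.Lib.AG6

open Finset Matrix Pool.Agent.Lib.MP_098da0_al
open scoped ComplexOrder

section

variable {n k l m : Type} [Fintype n] [Fintype k] [Fintype l] [Fintype m]

theorem quad_fro2 : Quad (fro2 : Matrix n k ℂ → ℝ) :=
  Quad.sum _ fun i => Quad.sum _ fun j => quad_norm.comp (Matrix.entryAddMonoidHom ℂ i j)

theorem contr [DecidableEq n] {M : Matrix n k ℂ} {N : Matrix n l ℂ} (h : M * Mᴴ + N * Nᴴ = 1)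
    (X : Matrix n m ℂ) : fro2 (Mᴴ * X) ≤ fro2 X := by
  have : fro2 (Mᴴ * X) + fro2 (Nᴴ * X) = fro2 X := by
    rw [fro2_eq_re_trace, fro2_eq_re_trace, fro2_eq_re_trace X, ← Complex.add_re, ← trace_add]
    congr 2
    calc (Mᴴ * X)ᴴ * (Mᴴ * X) + (Nᴴ * X)ᴴ * (Nᴴ * X) = Xᴴ * (M * Mᴴ + N * Nᴴ) * X := by
          simp [Matrix.mul_add, Matrix.add_mul, Matrix.mul_assoc]
      _ = _ := by rw [h, Matrix.mul_one]
  linarith [fro2_nonneg (Nᴴ * X)]

theorem fro2_four {a h : Matrix n n ℂ} (ha : aᴴ = a) (hh : hᴴ = h) :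
    fro2 ((a + h) * (a + h)) + fro2 ((a - h) * (a - h)) ≤
      2 * fro2 (a * a) + 12 * fro2 (h * a) + 6 * fro2 (h * h) := by
  have e1 := quad_fro2.2 (a * a + h * h) (a * h + h * a)
  have e2 := fro2_add_le (a * h) (h * a)
  have e3 : fro2 (a * h) = fro2 (h * a) := by rw [← fro2_conjTranspose, conjTranspose_mul, ha, hh]
  have e4 : (fro2 (a * a + h * h) : ℂ) = fro2 (a * a) + fro2 (h * h) + 2 * fro2 (h * a) := by
    simp only [fro2_eq_trace, conjTranspose_add, conjTranspose_mul, ha, hh, Matrix.add_mul,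
      Matrix.mul_add, trace_add]
    have e5 : (a * a * (h * h)).trace = (a * h * (h * a)).trace := by
      rw [Matrix.mul_assoc, trace_mul_comm]
      simp only [Matrix.mul_assoc]
    rw [trace_mul_comm (h * h) (a * a), e5]
    ring
  have e6 : fro2 (a * a + h * h) = fro2 (a * a) + fro2 (h * h) + 2 * fro2 (h * a) := by
    exact_mod_cast e4
  rw [show (a + h) * (a + h) = a * a + h * h + (a * h + h * a) by noncomm_ring,
    show (a - h) * (a - h) = a * a + h * h - (a * h + h * a) by noncomm_ring]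
  linarith [fro2_nonneg (h * h)]

variable [DecidableEq n] {Q : Matrix n n ℂ} (D : Diag Q)

theorem fro2_comm (f g : ℝ → ℂ) (s r : Matrix n n ℂ) : fro2 (D.fc f * s - r * D.fc g) =
    ∑ i, ∑ j, ‖f (D.μ i) * (D.Vᴴ * s * D.V) i j - (D.Vᴴ * r * D.V) i j * g (D.μ j)‖ ^ 2 := by
  have e : D.Vᴴ * (D.fc f * s - r * D.fc g) * D.V =
      D.Vᴴ * D.fc f * D.V * (D.Vᴴ * s * D.V) - D.Vᴴ * r * D.V * (D.Vᴴ * D.fc g * D.V) := by
    have : ∀ X Y : Matrix n n ℂ, D.Vᴴ * X * D.V * (D.Vᴴ * Y * D.V) = D.Vᴴ * (X * Y) * D.V :=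
      fun X Y => by
        calc _ = D.Vᴴ * (X * (D.V * D.Vᴴ) * Y) * D.V := by simp only [Matrix.mul_assoc]
          _ = _ := by rw [D.h2, Matrix.mul_one]
    rw [this, this, Matrix.mul_sub, Matrix.sub_mul]
  rw [← fro2_mul_left (U := D.Vᴴ) (by simpa using D.h2), ← fro2_mul_right D.h2, e, D.conj_fc,
    D.conj_fc]
  simp [fro2]

/-- The square root. -/
noncomputable def rt : Matrix n n ℂ := D.fc fun x => (√x : ℝ)

/-- The inverse of the square root on the range. -/
noncomputable def irt : Matrix n n ℂ := D.fc fun x => ((√x)⁻¹ : ℝ)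

theorem rt_herm : (rt D)ᴴ = rt D := by
  rw [rt, D.fc_conjTranspose]
  exact D.fc_congr fun i => by simp

theorem irt_herm : (irt D)ᴴ = irt D := by
  rw [irt, D.fc_conjTranspose]
  exact D.fc_congr fun i => by simp

theorem rt_irt : rt D * irt D = irt D * rt D := by
  rw [rt, irt, D.fc_mul, D.fc_mul]
  exact D.fc_congr fun i => mul_comm _ _

variable {D} {V : Matrix n k ℂ}

theorem rt_sq (hV : V * Vᴴ = Q) : rt D * rt D = Q := by
  have h : ∀ i, 0 ≤ D.μ i := by
    have : Q = Vᴴᴴ * Vᴴ := by simp [hV]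
    subst this
    exact D.μ_nonneg
  rw [rt, D.fc_mul]
  refine Eq.trans (D.fc_congr fun i => ?_) D.fc_id
  exact_mod_cast Real.mul_self_sqrt (h i)

theorem irt_mul (hV : V * Vᴴ = Q) : irt D * Q = rt D := by
  refine Eq.trans (congrArg (irt D * ·) (rt_sq (D := D) hV).symm) ?_
  simp only [rt, irt, D.fc_mul]
  refine D.fc_congr fun i => ?_
  by_cases h : √(D.μ i) = 0
  · simp [h]
  · exact_mod_cast inv_mul_cancel_left₀ h _

theorem mul_irt (hV : V * Vᴴ = Q) : Q * irt D = rt D := by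
  have := congrArg conjTranspose (irt_mul (D := D) hV)
  rwa [conjTranspose_mul, irt_herm, rt_herm, show Qᴴ = Q by simp [← hV]] at this

theorem rt_irt_mul (hV : V * Vᴴ = Q) : rt D * (irt D * V) = V := by
  have h : (1 - rt D * irt D) * V * ((1 - rt D * irt D) * V)ᴴ = 0 := by
    rw [conjTranspose_mul, Matrix.mul_assoc, ← Matrix.mul_assoc V, hV, ← Matrix.mul_assoc,
      Matrix.sub_mul, Matrix.mul_assoc (rt D), irt_mul hV, rt_sq hV]
    simp
  have := self_mul_conjTranspose_eq_zero.1 h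
  rw [Matrix.sub_mul, Matrix.one_mul, sub_eq_zero, Matrix.mul_assoc] at this
  exact this.symm

theorem irt_contr [DecidableEq k] (hV : V * Vᴴ = Q) (X : Matrix k m ℂ) :
    fro2 (irt D * V * X) ≤ fro2 X := by
  have h1 : irt D * V * ((irt D * V)ᴴ * (irt D * V)) = irt D * V := by
    calc _ = irt D * (V * Vᴴ) * irt D * (irt D * V) := by
          rw [conjTranspose_mul, irt_herm]
          simp only [Matrix.mul_assoc]
      _ = _ := by rw [hV, irt_mul hV, rt_irt, Matrix.mul_assoc, rt_irt_mul hV]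
  have := contr (M := (irt D * V)ᴴ) (N := 1 - (irt D * V)ᴴ * (irt D * V)) (by
    generalize irt D * V = A at h1
    simp [Matrix.mul_sub, Matrix.sub_mul, Matrix.mul_assoc, h1]) X
  rwa [conjTranspose_conjTranspose] at this

theorem trace_rt (hV : V * Vᴴ = Q) : ‖(rt D).trace‖ ^ 2 ≤ fro2 (rt D) * Fintype.card k := by
  have h1 := norm_trace_sq_le (Vᴴ * (irt D * V))
  have h2 : fro2 (Vᴴ * (irt D * V)) = fro2 (rt D) := by
    rw [fro2_eq_re_trace, fro2_eq_re_trace, rt_herm]
    congr 1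
    calc _ = (Vᴴ * (irt D * (V * Vᴴ) * irt D * V)).trace := by
          simp only [conjTranspose_mul, irt_herm, conjTranspose_conjTranspose, Matrix.mul_assoc]
      _ = _ := by
          rw [trace_mul_comm, Matrix.mul_assoc, Matrix.mul_assoc, hV, irt_mul hV]
  rwa [h2, trace_mul_comm, Matrix.mul_assoc, hV, irt_mul hV] at h1

theorem araki [DecidableEq k] {W : Matrix n k ℂ} (hV : V * Vᴴ = Q) (hW : W * Wᴴ = Q)
    {s : Matrix n n ℂ} (h1 : sᴴ * s = 1) (h2 : s * sᴴ = 1) :
    fro2 (rt D * s - s * rt D) ≤ 2 * fro2 (W - s * V) := by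
  have e0 : Vᴴ * irt D * rt D = Vᴴ := by
    have := congrArg conjTranspose (rt_irt_mul (D := D) hV)
    rwa [conjTranspose_mul, conjTranspose_mul, rt_herm, irt_herm] at this
  have e1 : irt D * W * (W - s * V)ᴴ * s = rt D * s - irt D * W * (Vᴴ * irt D) * rt D := by
    rw [conjTranspose_sub, conjTranspose_mul, Matrix.mul_sub, Matrix.sub_mul,
      Matrix.mul_assoc _ W, hW, irt_mul hV, Matrix.mul_assoc _ (Vᴴ * sᴴ), Matrix.mul_assoc Vᴴ, h1,
      Matrix.mul_one, Matrix.mul_assoc _ (Vᴴ * irt D), e0]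
  have e2 : (irt D * V * (W - s * V)ᴴ)ᴴ = rt D * (irt D * W * (Vᴴ * irt D)) - s * rt D := by
    rw [conjTranspose_mul, conjTranspose_conjTranspose, conjTranspose_mul, irt_herm,
      Matrix.sub_mul, ← Matrix.mul_assoc (rt D), rt_irt_mul hW, Matrix.mul_assoc s,
      ← Matrix.mul_assoc V, hV, mul_irt hV]
  have e3 := irt_contr (D := D) hW (W - s * V)ᴴ
  have e4 := irt_contr (D := D) hV (W - s * V)ᴴ
  rw [← fro2_mul_right h2, e1, fro2_conjTranspose] at e3
  rw [← fro2_conjTranspose, e2, fro2_conjTranspose] at e4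
  refine le_trans ?_ ((add_le_add e3 e4).trans (two_mul _).ge)
  generalize irt D * W * (Vᴴ * irt D) = r
  simp only [rt, fro2_comm, ← Finset.sum_add_distrib]
  refine Finset.sum_le_sum fun i _ => Finset.sum_le_sum fun j _ => ?_
  have ha := Real.sqrt_nonneg (D.μ i)
  have hb := Real.sqrt_nonneg (D.μ j)
  generalize √(D.μ i) = a at ha
  generalize √(D.μ j) = b at hb
  generalize (D.Vᴴ * s * D.V) i j = x
  generalize (D.Vᴴ * r * D.V) i j = y
  simp only [Complex.sq_norm, Complex.normSq_apply, Complex.sub_re, Complex.sub_im, Complex.mul_re,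
    Complex.mul_im, Complex.ofReal_re, Complex.ofReal_im]
  nlinarith [mul_nonneg (mul_nonneg ha hb) (sq_nonneg (x.re - y.re)),
    mul_nonneg (mul_nonneg ha hb) (sq_nonneg (x.im - y.im)), sq_nonneg ((a - b) * y.re),
    sq_nonneg ((a - b) * y.im)]

end

theorem hs_cut2 {a b n : ℕ} (h : a + b = n) (σ : Uni n) {η : ℝ} (hη : 0 < η) :
    ∃ τ : Uni a × Uni b,
      fro2 (σ.1 - (mbs h τ).1) ≤ 3 * fro2 (bl h 1 0 * σ.1 - σ.1 * bl h 1 0) + 2 * η := by
  set A := σ.1.submatrix (fun i => sumE h (Sum.inl i)) (fun i => sumE h (Sum.inl i)) with hA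
  set B := σ.1.submatrix (fun i => sumE h (Sum.inl i)) (fun i => sumE h (Sum.inr i)) with hB
  set C := σ.1.submatrix (fun i => sumE h (Sum.inr i)) (fun i => sumE h (Sum.inl i)) with hC
  set E := σ.1.submatrix (fun i => sumE h (Sum.inr i)) (fun i => sumE h (Sum.inr i)) with hE
  have e1 : Aᴴ * A + Cᴴ * C = 1 := by
    ext i j
    have := congrFun (congrFun (uni_star_mul σ) (sumE h (Sum.inl i))) (sumE h (Sum.inl j))
    rw [Matrix.mul_apply, sum_sumE h] at this
    simpa [hA, hC, Matrix.mul_apply, one_apply] using this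
  have e2 : Bᴴ * B + Eᴴ * E = 1 := by
    ext i j
    have := congrFun (congrFun (uni_star_mul σ) (sumE h (Sum.inr i))) (sumE h (Sum.inr j))
    rw [Matrix.mul_apply, sum_sumE h] at this
    simpa [hB, hE, Matrix.mul_apply, one_apply] using this
  have e3 : C * Cᴴ + E * Eᴴ = 1 := by
    ext i j
    have := congrFun (congrFun (uni_mul_star σ) (sumE h (Sum.inr i))) (sumE h (Sum.inr j))
    rw [Matrix.mul_apply, sum_sumE h] at this
    simpa [hC, hE, Matrix.mul_apply, one_apply] using this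
  have e4 : B * Bᴴ + A * Aᴴ = 1 := by
    ext i j
    have := congrFun (congrFun (uni_mul_star σ) (sumE h (Sum.inl i))) (sumE h (Sum.inl j))
    rw [Matrix.mul_apply, sum_sumE h, add_comm] at this
    simpa [hA, hB, Matrix.mul_apply, one_apply] using this
  obtain ⟨τ, -, hτ⟩ := polar_approx (H := Empty) (A := Empty.elim) (B := Empty.elim)
    (T := A) (T₀ := 1) (fun x => x.elim) (fun x => x.elim) isUnit_one hη
  obtain ⟨τ', -, hτ'⟩ := polar_approx (H := Empty) (A := Empty.elim) (B := Empty.elim)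
    (T := E) (T₀ := 1) (fun x => x.elim) (fun x => x.elim) isUnit_one hη
  rw [← e1, add_sub_cancel_left] at hτ
  rw [← e2, add_sub_cancel_right] at hτ'
  have f1 := contr e3 C
  have f2 := contr e4 B
  have f3 : fro2 (bl h 1 0 * σ.1 - σ.1 * bl h 1 0) = fro2 B + fro2 C := by
    rw [fro2_split h]
    simp [fro2, hB, hC, Matrix.mul_apply, sum_sumE h, one_apply]
  refine ⟨(τ, τ'), ?_⟩
  rw [fro2_split h]
  have g1 : (σ.1 - (mbs h (τ, τ')).1).submatrix (fun i => sumE h (Sum.inl i))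
      (fun i => sumE h (Sum.inl i)) = A - τ.1 := by ext i j; simp [hA, mbs_coe]
  have g2 : (σ.1 - (mbs h (τ, τ')).1).submatrix (fun i => sumE h (Sum.inl i))
      (fun i => sumE h (Sum.inr i)) = B := by ext i j; simp [hB, mbs_coe]
  have g3 : (σ.1 - (mbs h (τ, τ')).1).submatrix (fun i => sumE h (Sum.inr i))
      (fun i => sumE h (Sum.inl i)) = C := by ext i j; simp [hC, mbs_coe]
  have g4 : (σ.1 - (mbs h (τ, τ')).1).submatrix (fun i => sumE h (Sum.inr i))
      (fun i => sumE h (Sum.inr i)) = E - τ'.1 := by ext i j; simp [hE, mbs_coe]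
  rw [g1, g2, g3, g4, fro2_sub_comm A, fro2_sub_comm E]
  linarith

end Pool.Agent.Lib.AG6
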