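import Pool.Agent.Lib.AG6.Split

namespace Pool.Agent.Lib.AG6

open Finset Filter Asymptotics Pool.Agent.Lib.MP_098da0_al

theorem lattice_bound {J : Type} [Fintype J] (Λ : AddSubgroup (J → ℂ))
    (hΛ : ∀ w ∈ Λ, ∀ w' ∈ Λ, ∃ z : ℤ, ∑ j, w j * (starRingEnd ℂ) (w' j) = z) :
    ∃ (r : ℕ) (g : Fin r ⊕ Fin r → J → ℂ) (C : ℝ), 0 ≤ C ∧ (∀ s, g s ∈ Λ) ∧ ∀ w ∈ Λ,
      ∃ x : Fin r ⊕ Fin r → ℕ, w + ∑ s, x s • g s = 0 ∧ (∑ s, (x s : ℝ)) ≤ C * ∑ j, ‖w j‖ := by
  classical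
  obtain ⟨b, hb, hspan, hli⟩ := exists_linearIndependent ℂ (Λ : Set (J → ℂ))
  have hfin : Finite b := hli.finite
  choose z hz using fun (w : Λ) (p : b) => hΛ w.1 w.2 p.1 (hb p.2)
  let f : Λ →+ (b → ℤ) := AddMonoidHom.mk' z fun w w' => by
    funext p
    have : ((z (w + w') p : ℤ) : ℂ) = ((z w p + z w' p : ℤ) : ℂ) := by
      push_cast
      rw [← hz, ← hz, ← hz, ← Finset.sum_add_distrib]
      exact Finset.sum_congr rfl fun j _ => by simp [add_mul]
    exact_mod_cast this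
  have hf : Function.Injective f := by
    rw [injective_iff_map_eq_zero]
    intro w hw
    have h1 : ∀ y ∈ Submodule.span ℂ b, ∑ j, w.1 j * (starRingEnd ℂ) (y j) = 0 := by
      intro y hy
      induction hy using Submodule.span_induction with
      | mem y hy =>
        rw [hz w ⟨y, hy⟩, show z w ⟨y, hy⟩ = 0 from congrFun hw ⟨y, hy⟩]
        simp
      | zero => simp
      | add y y' _ _ h h' => simp [mul_add, Finset.sum_add_distrib, h, h']
      | smul c y _ h =>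
        have : ∀ j, w.1 j * (starRingEnd ℂ) ((c • y) j) =
            (starRingEnd ℂ) c * (w.1 j * (starRingEnd ℂ) (y j)) := fun j => by
          simp only [Pi.smul_apply, smul_eq_mul, map_mul]
          ring
        simp only [this, ← Finset.mul_sum, h, mul_zero]
    have h2 := h1 w.1 (hspan ▸ Submodule.subset_span w.2)
    simp only [Complex.mul_conj] at h2
    have h3 : ∑ j, Complex.normSq (w.1 j) = 0 := by exact_mod_cast h2
    rw [Finset.sum_eq_zero_iff_of_nonneg (fun _ _ => Complex.normSq_nonneg _)] at h3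
    ext j
    simpa using h3 j (mem_univ j)
  have : Module.Finite ℤ Λ := Module.Finite.of_injective f.toIntLinearMap hf
  obtain ⟨r, s, hs⟩ := Module.Finite.exists_fin (R := ℤ) (M := Λ)
  let g : Fin r ⊕ Fin r → J → ℂ := Sum.elim (fun i => (s i).1) (fun i => -(s i).1)
  have hg : ∀ p, g p ∈ Λ := by
    rintro (i | i)
    · exact (s i).2
    · exact neg_mem (s i).2
  obtain ⟨C, hC0, hC⟩ := hoffman_gram g fun p p' => hΛ _ (hg p) _ (hg p')
  refine ⟨r, g, C, hC0, hg, fun w hw => ?_⟩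
  obtain ⟨c, hc⟩ := (Submodule.mem_span_range_iff_exists_fun ℤ).1
    (hs ▸ Submodule.mem_top : (-⟨w, hw⟩ : Λ) ∈ Submodule.span ℤ (Set.range s))
  let q : Fin r ⊕ Fin r → ℕ := Sum.elim (fun i => (c i).toNat) (fun i => (-c i).toNat)
  have hq : ∀ j, ∑ p, (q p : ℂ) * g p j = -w j := by
    intro j
    have h1 := congrFun (congrArg Subtype.val hc) j
    simp only [AddSubgroup.val_finsetSum, Finset.sum_apply, AddSubgroup.coe_zsmul, Pi.smul_apply,
      AddSubgroup.coe_neg, Pi.neg_apply] at h1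
    simp only [zsmul_eq_mul] at h1
    rw [← h1, Fintype.sum_sum_type, ← Finset.sum_add_distrib]
    refine Finset.sum_congr rfl fun i _ => ?_
    have h2 : (((c i).toNat : ℤ) : ℂ) - (((-c i).toNat : ℤ) : ℂ) = c i := by
      exact_mod_cast congrArg (fun x : ℤ => (x : ℂ)) (Int.toNat_sub_toNat_neg (c i))
    simp only [q, g, Sum.elim_inl, Sum.elim_inr, Pi.neg_apply]
    rw [← h2]
    push_cast
    ring
  obtain ⟨y, hy, hy0, hyC⟩ := hC q
  refine ⟨fun p => q p - y p, ?_, ?_⟩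
  · funext j
    simp only [Pi.add_apply, Finset.sum_apply, Pi.smul_apply, Pi.zero_apply]
    simp only [nsmul_eq_mul, Nat.cast_sub (hy _), sub_mul, Finset.sum_sub_distrib, hq, hy0]
    ring
  · simp only [Nat.cast_sub (hy _), Finset.sum_sub_distrib]
    simpa only [hq, norm_neg] using hyC

theorem one_le_of_integral {J : Type} [Fintype J] {w : J → ℂ} (hw : w ≠ 0)
    (h : ∃ z : ℤ, ∑ j, w j * (starRingEnd ℂ) (w j) = z) : 1 ≤ ∑ j, ‖w j‖ := by
  obtain ⟨z, hz⟩ := h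
  simp only [Complex.mul_conj, Complex.normSq_eq_norm_sq] at hz
  have h1 : ∑ j, ‖w j‖ ^ 2 = z := by exact_mod_cast hz
  obtain ⟨j, hj⟩ := Function.ne_iff.1 hw
  have h2 : 0 < ∑ j, ‖w j‖ ^ 2 := Finset.sum_pos' (fun _ _ => by positivity)
    ⟨j, mem_univ j, pow_pos (norm_pos_iff.2 hj) 2⟩
  have h3 : (1 : ℝ) ≤ z := by
    have : (0 : ℤ) < z := by exact_mod_cast h1 ▸ h2
    exact_mod_cast this
  have h4 : ∑ j, ‖w j‖ ^ 2 ≤ (∑ j, ‖w j‖) ^ 2 :=
    Finset.sum_sq_le_sq_sum_of_nonneg fun _ _ => norm_nonneg _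
  have h5 : 0 ≤ ∑ j, ‖w j‖ := Finset.sum_nonneg fun _ _ => norm_nonneg _
  nlinarith

theorem diag {X : ℕ → Type} (Good : ∀ n, ℕ → X n → Prop) (h0 : ∀ n, ∃ x, Good n 0 x)
    (h : ∀ j, ∀ᶠ n in atTop, ∃ x, Good n j x) :
    ∃ (j : ℕ → ℕ) (x : ∀ n, X n), Tendsto j atTop atTop ∧ ∀ n, Good n (j n) (x n) := by
  classical
  let j : ℕ → ℕ := fun n => Nat.findGreatest (fun j => ∃ x, Good n j x) n
  have h1 : ∀ n, ∃ x, Good n (j n) x := fun n =>
    Nat.findGreatest_spec (P := fun j => ∃ x, Good n j x) (Nat.zero_le n) (h0 n)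
  choose x hx using h1
  refine ⟨j, x, tendsto_atTop.2 fun j₀ => ?_, hx⟩
  filter_upwards [h j₀, eventually_ge_atTop j₀] with n hn hn'
  exact Nat.le_findGreatest hn' hn

end Pool.Agent.Lib.AG6
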