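import Pool.Agent.Lib.AG6.PermG
import Pool.Agent.Lib.AG6.HSG

namespace Pool.Agent.Lib.AG6

open Finset Filter Asymptotics Pool.Agent.Lib.MP_098da0_al

theorem jacobson_int : IsJacobsonRing ℤ := by
  refine isJacobsonRing_iff_prime_eq.2 fun P hP => ?_
  by_cases h : P = ⊥
  · subst h
    refine le_bot_iff.1 fun x hx => ?_
    have := Int.isUnit_iff.1 (Ideal.mem_jacobson_bot.1 hx x)
    exact mul_self_eq_zero.1 (by rcases this with h | h <;> nlinarith [mul_self_nonneg x])
  · have := Ring.DimensionLEOne.maximalOfPrime h hP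
    exact Ideal.jacobson_eq_self_of_isMaximal

theorem finite_field (K : Type) [Field K] [i : Algebra ℤ K] [Algebra.FiniteType ℤ K] :
    Finite K := by
  obtain rfl : i = Ring.toIntAlgebra K := Subsingleton.elim _ _
  have := jacobson_int
  have := finite_of_finite_type_of_isJacobsonRing ℤ K
  by_cases h : Function.Injective (algebraMap ℤ K)
  · exact absurd (isField_of_isIntegral_of_isField h (Field.toIsField K)) Int.not_isField
  · rw [injective_iff_map_eq_zero] at h
    push Not at h
    obtain ⟨p, h1, h2⟩ := h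
    exact Module.finite_of_fg_torsion K fun x => ⟨⟨p, mem_nonZeroDivisors_of_ne_zero h2⟩, by
      change p • x = 0
      rw [Algebra.smul_def, h1, zero_mul]⟩

theorem malcev {G : Type} [Group G] (hG : Group.FG G) {n : ℕ} (ψ : G →* Mat n) {g : G}
    (hg : ψ g ≠ 1) : ∃ (Q : Type) (_ : Group Q) (_ : Finite Q) (ρ : G →* Q), ρ g ≠ 1 := by
  obtain ⟨S, hS, hS'⟩ := Monoid.fg_iff.1 (Group.fg_iff_monoid_fg.1 hG)
  have := hS'.to_subtype
  have hT := Set.finite_range fun p : S × Fin n × Fin n => ψ p.1 p.2.1 p.2.2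
  set A := Algebra.adjoin ℤ (Set.range fun p : S × Fin n × Fin n => ψ p.1 p.2.1 p.2.2) with hA
  have : Algebra.FiniteType ℤ A := .adjoin_of_finite hT
  have h1 : ∀ x i j, ψ x i j ∈ A := by
    intro x
    have hx : x ∈ Submonoid.closure S := hS ▸ Submonoid.mem_top x
    induction hx using Submonoid.closure_induction with
    | mem x hx => exact fun i j => Algebra.subset_adjoin ⟨⟨⟨x, hx⟩, i, j⟩, rfl⟩
    | one =>
      intro i j
      rw [map_one, Matrix.one_apply]
      split_ifs
      exacts [A.one_mem, A.zero_mem]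
    | mul x y _ _ hx hy =>
      intro i j
      rw [map_mul, Matrix.mul_apply]
      exact A.sum_mem fun k _ => A.mul_mem (hx i k) (hy k j)
  have h2 : Function.Injective (A.val.toRingHom.mapMatrix (m := Fin n)) :=
    Matrix.map_injective Subtype.val_injective
  let φ : G →* Matrix (Fin n) (Fin n) A :=
    { toFun := fun x => Matrix.of fun i j => ⟨ψ x i j, h1 x i j⟩
      map_one' := h2 ((map_one ψ).trans (map_one _).symm)
      map_mul' := fun x y => h2 ((map_mul ψ x y).trans (map_mul A.val.toRingHom.mapMatrix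
        (Matrix.of fun i j => ⟨ψ x i j, h1 x i j⟩)
        (Matrix.of fun i j => ⟨ψ y i j, h1 y i j⟩)).symm) }
  obtain ⟨i, j, h3⟩ : ∃ i j, (φ g - 1) i j ≠ 0 := by
    by_contra h
    push Not at h
    exact hg ((congrArg A.val.toRingHom.mapMatrix (sub_eq_zero.1 (Matrix.ext h))).trans (map_one _))
  have := jacobson_int
  have : IsJacobsonRing A := isJacobsonRing_of_finiteType (A := ℤ)
  obtain ⟨m, hm, h4⟩ : ∃ m : Ideal A, m.IsMaximal ∧ (φ g - 1) i j ∉ m := by
    by_contra h
    push Not at h
    refine h3 (Ideal.mem_bot.1 ?_)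
    rw [← isJacobsonRing_iff_prime_eq.1 this ⊥ Ideal.isPrime_bot]
    exact Ideal.mem_sInf.2 fun m hm => h m hm.2
  let _ := Ideal.Quotient.field m
  have := finite_field (A ⧸ m)
  refine ⟨(Matrix (Fin n) (Fin n) (A ⧸ m))ˣ, inferInstance, inferInstance,
    ((Ideal.Quotient.mk m).mapMatrix.toMonoidHom.comp φ).toHomUnits, fun h => h4 ?_⟩
  have h5 : (Ideal.Quotient.mk m).mapMatrix (φ g - 1) = 0 := by
    rw [map_sub, map_one, sub_eq_zero]
    exact congrArg Units.val h
  exact Ideal.Quotient.eq_zero_iff_mem.1 (congrFun (congrFun h5 i) j)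

theorem countable_of_fg {G : Type} [Group G] (hG : Group.FG G) : Countable G := by
  obtain ⟨α, _, φ, h⟩ := Monoid.fg_iff_exists_freeGroup_hom_surjective_finite.1
    (Group.fg_iff_monoid_fg.1 hG)
  have : Countable (FreeMonoid α) := inferInstanceAs (Countable (List α))
  exact h.countable

theorem exists_rep {M : Model} (ι : ∀ {n : ℕ}, Equiv.Perm (Fin n) →* M.C n)
    (hι : ∀ {n : ℕ} (σ τ : Equiv.Perm (Fin n)), (cnt (fun x => σ x ≠ τ x) : ℝ) ≤ M.D (ι σ) (ι τ) ∧
      M.D (ι σ) (ι τ) ≤ 2 * cnt fun x => σ x ≠ τ x)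
    {G : Type} [Group G] [Countable G] (hA : Amenable G) (hG : M.Stable G) {g : G} (hg : g ≠ 1) :
    ∃ (n : ℕ) (ψ : G →* M.C n), ψ g ≠ 1 := by
  classical
  obtain ⟨T, hT⟩ := exists_exhaust G
  choose F hF hF' using fun j : ℕ => amenable_cnt hA (T j) (ε := 1 / ((j : ℝ) + 1)) (by positivity)
  choose τ hτ using fun j (a : G) => exists_ext (e := fun i => ((F j).equivFin.symm i).1)
    (Subtype.val_injective.comp (F j).equivFin.symm.injective) (Equiv.mulLeft a)
  let b : G → ℕ → ℝ := fun a j => cnt fun i => a * ((F j).equivFin.symm i).1 ∉ F j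
  have hb : ∀ a, Small (fun j => (F j).card) (b a) := fun a => by
    obtain ⟨j₀, hj₀⟩ := hT a
    refine small_of_level tendsto_id (fun _ => by positivity) j₀ fun j hj => ?_
    exact (congrArg Nat.cast (cnt_equiv (F j).equivFin.symm fun f => a * f.1 ∉ F j)).le.trans
      (hF' j a (hj₀ j hj))
  have h1 : ∀ j a i, a * ((F j).equivFin.symm i).1 ∈ F j →
      ((F j).equivFin.symm (τ j a i)).1 = a * ((F j).equivFin.symm i).1 := fun j a i h => by
    rw [hτ j a i ((F j).equivFin ⟨_, h⟩) (by simp)]
    simp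
  obtain ⟨ψ, hψ⟩ := hG (fun j => (F j).card) (fun j a => ι (τ j a)) fun a a' => by
    refine Small.of_le (((hb a').add (hb (a * a'))).const_mul_left 2) (fun _ => M.D_nonneg _ _)
      fun j => ?_
    rw [← map_mul]
    refine (hι _ _).2.trans (mul_le_mul_of_nonneg_left ?_ two_pos.le)
    simp only [b]
    exact_mod_cast cnt_le_add fun i hi => by
      by_contra hc
      push Not at hc
      refine hi ((F j).equivFin.symm.injective (Subtype.ext ?_))
      have e := h1 j a' i hc.1
      rw [h1 j _ i hc.2, Equiv.Perm.mul_apply, h1 j a _ (by rw [e, ← mul_assoc]; exact hc.2), e,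
        mul_assoc]
  obtain ⟨j, hj⟩ := (Small.ev ((hψ g).add (hb g)) one_half_pos).exists
  refine ⟨_, ψ j, fun h => ?_⟩
  rw [h, ← map_one ι] at hj
  have h2 : (cnt (fun x => τ j g x ≠ x) : ℝ) ≤ _ := (hι (τ j g) 1).1
  have h3 : cnt (fun _ : Fin (F j).card => True) ≤ cnt (fun x => τ j g x ≠ x) +
      cnt fun i => g * ((F j).equivFin.symm i).1 ∉ F j := cnt_le_add fun i _ => by
    by_contra hc
    push Not at hc
    have := h1 j g i hc.2
    rw [hc.1] at this
    exact hg (right_eq_mul.1 this)
  rw [cnt_true fun _ => trivial, Fintype.card_fin] at h3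
  have h4 : ((F j).card : ℝ) ≤ cnt (fun x => τ j g x ≠ x) + b g j := by
    simp only [b]
    exact_mod_cast h3
  have h5 : (0 : ℝ) < (F j).card := by exact_mod_cast (hF j).card_pos
  linarith

theorem perm_rf {G : Type} [Group G] [Countable G] (hA : Amenable G) (hG : permModel.Stable G) :
    Group.ResiduallyFinite G :=
  Group.residuallyFinite_of_forall_exists_finite_monoidHom fun g hg => by
    obtain ⟨n, ψ, h⟩ := exists_rep (M := permModel) (MonoidHom.id _) (fun σ τ => ⟨le_rfl, by
      change (cnt (fun x => σ x ≠ τ x) : ℝ) ≤ _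
      have : (0 : ℝ) ≤ cnt (fun x => σ x ≠ τ x) := by positivity
      linarith⟩) hA hG hg
    exact ⟨Equiv.Perm (Fin n), inferInstance, inferInstance, ψ, h⟩

theorem hs_rf {G : Type} [Group G] (hF : Group.FG G) (hA : Amenable G) (hG : hsModel.Stable G) :
    Group.ResiduallyFinite G :=
  Group.residuallyFinite_of_forall_exists_finite_monoidHom fun g hg => by
    have := countable_of_fg hF
    let P : ∀ {n : ℕ}, Equiv.Perm (Fin n) → Mat n := fun σ =>
      Matrix.of fun x y => if x = σ y then 1 else 0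
    have h : ∀ {n : ℕ} (σ τ : Equiv.Perm (Fin n)),
        fro2 (P σ - P τ) = 2 * cnt fun x => σ x ≠ τ x := fun σ τ => by
      unfold fro2 cnt
      push_cast
      rw [Finset.sum_comm, Finset.mul_sum]
      refine Finset.sum_congr rfl fun y _ => ?_
      by_cases e : σ y = τ y
      · simp [P, e]
      · rw [Finset.sum_eq_add (σ y) (τ y) e (fun x _ hx => by simp [P, hx.1, hx.2]) (by simp)
          (by simp)]
        simp [P, e, Ne.symm e]
        norm_num
    obtain ⟨n, ψ, h⟩ := exists_rep (M := hsModel) (MonoidHom.mk' (fun σ =>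
      (⟨P σ, Matrix.mem_unitaryGroup_iff'.2 (by
        ext x y
        simp [P, Matrix.mul_apply, Matrix.one_apply, @eq_comm _ y x])⟩ : Uni _))
      fun σ τ => Subtype.ext (by
        change P (σ * τ) = P σ * P τ
        ext x y
        simp [P, Matrix.mul_apply])) (fun σ τ => ⟨by
          refine le_trans ?_ (h σ τ).ge
          have : (0 : ℝ) ≤ cnt (fun x => σ x ≠ τ x) := by positivity
          linarith, (h σ τ).le⟩) hA hG hg
    exact malcev hF ((Matrix.unitaryGroup (Fin n) ℂ).subtype.comp ψ) fun e => h (Subtype.ext e)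

end Pool.Agent.Lib.AG6
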