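import Pool.Agent.Lib.AG6.Match
import Pool.Agent.Lib.AG6.Defs

namespace Pool.Agent.Lib.AG6

open Finset Filter Asymptotics Pool.Agent.Lib.MP_098da0_al

variable {M : Model}

theorem stable_retract {A B : Type} [Group A] [Group B] (i : A →* B) (r : B →* A)
    (h : ∀ a, r (i a) = a) (hB : M.Stable B) : M.Stable A := by
  intro k f hf
  obtain ⟨ψ, hψ⟩ := hB k (fun n b => f n (r b)) (fun a b => by simpa only [map_mul] using hf _ _)
  exact ⟨fun n => (ψ n).comp i, fun a => by
    simpa only [h, MonoidHom.comp_apply] using hψ (i a)⟩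

/-- The elements at which an asymptotic homomorphism is close to a sequence of homomorphisms. -/
def closeSub {A : Type} [Group A] {k : ℕ → ℕ} {f : ∀ n, A → M.C (k n)}
    (hf : ∀ a b, Small k fun n => M.D (f n a * f n b) (f n (a * b))) (ψ : ∀ n, A →* M.C (k n)) :
    Subgroup A where
  carrier := {a | Small k fun n => M.D (f n a) (ψ n a)}
  one_mem' := by
    refine (hf 1 1).congr_left fun n => ?_
    rw [mul_one, map_one, ← M.D_mul_right (f n 1) (f n 1) 1, one_mul]
  mul_mem' := by
    intro x y hx hy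
    refine Model.small_tri (Model.small_symm (hf x y)) ?_
    simpa only [map_mul] using Model.small_mul hx hy
  inv_mem' := by
    intro x hx
    have h1 : Small k fun n => M.D (f n 1) 1 := by
      refine (hf 1 1).congr_left fun n => ?_
      rw [mul_one, ← M.D_mul_right (f n 1) (f n 1) 1, one_mul]
    have h2 := hf x x⁻¹
    rw [mul_inv_cancel] at h2
    have h3 : Small k fun n => M.D (ψ n x * f n x⁻¹) (f n x * f n x⁻¹) := by
      simpa only [M.D_mul_right] using Model.small_symm hx
    refine (Model.small_tri h3 (Model.small_tri h2 h1)).congr_left fun n => ?_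
    rw [← M.D_mul_left (ψ n x) (f n x⁻¹), ← map_mul, mul_inv_cancel, map_one]

variable {V E : Type} {o t : E → V} {G : V → Type} [∀ v, Group (G v)] {H : E → Type}
  [∀ e, Group (H e)] (α : ∀ e, H e →* G (o e)) (β : ∀ e, H e →* G (t e))

theorem of_mul (v : V) (g g' : G v) :
    (PresentedGroup.of (Sum.inl ⟨v, g * g'⟩) : PresentedGroup (rels α β)) =
      PresentedGroup.of (Sum.inl ⟨v, g⟩) * PresentedGroup.of (Sum.inl ⟨v, g'⟩) := by
  have := PresentedGroup.one_of_mem (rels := rels α β) (Or.inl ⟨v, g, g', rfl⟩)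
  simp only [map_mul, map_inv] at this
  exact (mul_inv_eq_one.1 this).symm

theorem of_edge (e : E) (h : H e) :
    (PresentedGroup.of (Sum.inr e) : PresentedGroup (rels α β)) *
      PresentedGroup.of (Sum.inl ⟨o e, α e h⟩) * (PresentedGroup.of (Sum.inr e))⁻¹ =
      PresentedGroup.of (Sum.inl ⟨t e, β e h⟩) := by
  have := PresentedGroup.one_of_mem (rels := rels α β) (Or.inr ⟨e, h, rfl⟩)
  simp only [map_mul, map_inv] at this
  exact mul_inv_eq_one.1 this

theorem exists_lift {A : Type} [Group A] (χ : ∀ v, G v → A)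
    (hχ : ∀ v g g', χ v (g * g') = χ v g * χ v g') (y : E → A)
    (hy : ∀ e h, y e * χ (o e) (α e h) * (y e)⁻¹ = χ (t e) (β e h)) :
    ∃ F : PresentedGroup (rels α β) →* A,
      (∀ v g, F (PresentedGroup.of (Sum.inl ⟨v, g⟩)) = χ v g) ∧
        ∀ e, F (PresentedGroup.of (Sum.inr e)) = y e := by
  have h : ∀ r ∈ rels α β,
      FreeGroup.lift (Sum.elim (fun p : Σ v, G v => χ p.1 p.2) y) r = 1 := by
    rintro r (⟨v, g, g', rfl⟩ | ⟨e, h, rfl⟩)
    · simp [hχ]
    · simp only [map_mul, map_inv, FreeGroup.lift_apply_of, Sum.elim_inl, Sum.elim_inr]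
      rw [hy, mul_inv_cancel]
  exact ⟨PresentedGroup.toGroup h, fun v g => PresentedGroup.toGroup.of h,
    fun e => PresentedGroup.toGroup.of h⟩

theorem stable_path [Finite E] [Finite V] [∀ e, Finite (H e)] [∀ v, Countable (G v)]
    {I : ∀ e, HInv M (H e)} (X : MExt M) (hI : ∀ e, HExt (I e)) (hC : Cancels I α β) {c : ℝ}
    (hc : 0 < c) (hc1 : c ≤ 1) (hG : ∀ v, M.Stable (G v)) (hH : ∀ v, Halves M (G v) c) :
    M.Stable (PresentedGroup (rels α β)) := by
  intro k f hf
  choose ψ hψ using fun v => hG v k (fun n g => f n (PresentedGroup.of (Sum.inl ⟨v, g⟩)))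
    (fun a b => by simpa only [of_mul] using hf _ _)
  obtain ⟨χ, y, h1, h2, h3⟩ := match_seq α β X hI hC hc hc1 hG hH k (fun n v => ψ v n)
    (fun n e => f n (PresentedGroup.of (Sum.inr e))) (fun e h => by
      have e1 := hf (PresentedGroup.of (Sum.inr e)) (PresentedGroup.of (Sum.inl ⟨o e, α e h⟩))
      have e2 := hf (PresentedGroup.of (Sum.inl ⟨t e, β e h⟩)) (PresentedGroup.of (Sum.inr e))
      rw [← of_edge α β e h, inv_mul_cancel_right, of_edge] at e2
      have e3 : Small k fun n => M.D
          (f n (PresentedGroup.of (Sum.inr e)) * ψ (o e) n (α e h))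
          (f n (PresentedGroup.of (Sum.inr e)) *
            f n (PresentedGroup.of (Sum.inl ⟨o e, α e h⟩))) := by
        simpa only [M.D_mul_left] using Model.small_symm (hψ (o e) (α e h))
      have e4 : Small k fun n => M.D
          (f n (PresentedGroup.of (Sum.inl ⟨t e, β e h⟩)) * f n (PresentedGroup.of (Sum.inr e)))
          (ψ (t e) n (β e h) * f n (PresentedGroup.of (Sum.inr e))) := by
        simpa only [M.D_mul_right] using hψ (t e) (β e h)
      refine (Model.small_tri (Model.small_tri e3 e1)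
        (Model.small_tri (Model.small_symm e2) e4)).congr_left fun n => ?_
      rw [← M.D_mul_right (f n (PresentedGroup.of (Sum.inr e)))⁻¹, mul_inv_cancel_right])
  choose F hF1 hF2 using fun n =>
    exists_lift α β (fun v g => χ n v g) (fun v g g' => map_mul _ g g') (y n) (h3 n)
  refine ⟨F, fun a => ?_⟩
  have : closeSub hf F = ⊤ := by
    rw [eq_top_iff, ← PresentedGroup.closure_range_of, Subgroup.closure_le]
    rintro _ ⟨⟨v, g⟩ | e, rfl⟩
    · change Small k fun n => M.D _ (F n _)
      simpa only [hF1] using Model.small_tri (hψ v g) (h1 v g)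
    · change Small k fun n => M.D _ (F n _)
      simpa only [hF2] using h2 e
  have h4 : a ∈ closeSub hf F := this ▸ Subgroup.mem_top a
  exact h4

theorem stable_fund (hP : M.Stable (PresentedGroup (rels α β))) (v₀ : V) :
    M.Stable (fundGroup α β v₀) := by
  classical
  have h0 : ∀ v, ∃ γ, (∃ x, IsPath α β v₀ v x) → IsPath α β v₀ v γ ∧ (v = v₀ → γ = 1) := by
    intro v
    by_cases hv : v = v₀
    · subst hv
      exact ⟨1, fun _ => ⟨(fundGroup α β v).one_mem, fun _ => rfl⟩⟩
    · by_cases h : ∃ x, IsPath α β v₀ v x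
      · obtain ⟨x, hx⟩ := h
        exact ⟨x, fun _ => ⟨hx, fun h => absurd h hv⟩⟩
      · exact ⟨1, fun h' => absurd h' h⟩
  choose γ hγ using h0
  let R : V → Prop := fun v => ∃ x, IsPath α β v₀ v x
  have hR : ∀ {u v x}, IsPath α β u v x → (R u ↔ R v) := fun h =>
    ⟨fun ⟨_, hy⟩ => ⟨_, hy.mul h⟩, fun ⟨_, hy⟩ => ⟨_, hy.mul h.inv⟩⟩
  let cl : ∀ {u v x}, IsPath α β u v x → fundGroup α β v₀ := fun {u v x} h =>
    if hu : R u then ⟨γ u * x * (γ v)⁻¹, ((hγ u hu).1.mul h).mul (hγ v ((hR h).1 hu)).1.inv⟩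
    else 1
  obtain ⟨F, hF1, hF2⟩ := exists_lift α β (fun v g => cl (IsPath.vert v g))
    (fun v g g' => by
      simp only [cl]
      split_ifs with h
      · apply Subtype.ext
        simp only [Subgroup.coe_mul, of_mul]
        group
      · simp)
    (fun e => cl (IsPath.edge e))
    (fun e h => by
      simp only [cl]
      by_cases hu : R (t e)
      · rw [dif_pos hu, dif_pos hu, dif_pos ((hR (IsPath.edge e)).1 hu)]
        apply Subtype.ext
        simp only [Subgroup.coe_mul, Subgroup.coe_inv, ← of_edge]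
        group
      · rw [dif_neg hu, dif_neg hu, dif_neg (fun h => hu ((hR (IsPath.edge e)).2 h))]
        simp)
  have hF : ∀ {u v x}, IsPath α β u v x → R u → (F x).1 = γ u * x * (γ v)⁻¹ := by
    intro u v x h
    induction h with
    | vert v g =>
      intro hu
      rw [hF1]
      simp only [cl, dif_pos hu]
    | edge e =>
      intro hu
      rw [hF2]
      simp only [cl, dif_pos hu]
    | mul h1 _ ih1 ih2 =>
      intro hu
      rw [map_mul, Subgroup.coe_mul, ih1 hu, ih2 ((hR h1).1 hu)]
      group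
    | inv h1 ih =>
      intro hu
      rw [map_inv, Subgroup.coe_inv, ih ((hR h1).2 hu)]
      group
  have hv : R v₀ := ⟨1, (fundGroup α β v₀).one_mem⟩
  refine stable_retract (fundGroup α β v₀).subtype F (fun a => Subtype.ext ?_) hP
  rw [Subgroup.subtype_apply, hF a.2 hv, (hγ v₀ hv).2 rfl]
  simp

end Pool.Agent.Lib.AG6
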