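import Pool.Agent.Lib.AG6.PermG

namespace Pool.Agent.Lib.AG6

open Finset Equiv Pool.Agent.Lib.MP_098da0_al

theorem exists_sep (G : Type) [Group G] [Group.ResiduallyFinite G] {T : Set G} (hT : T.Finite) :
    ∃ (Q : Type) (_ : Group Q) (_ : Finite Q) (ρ : G →* Q), ∀ g ∈ T, ρ g = 1 → g = 1 := by
  induction T, hT using Set.Finite.induction_on with
  | empty => exact ⟨Unit, inferInstance, inferInstance, 1, by simp⟩
  | @insert a s _ _ ih =>
    obtain ⟨Q, _, _, ρ, h⟩ := ih
    by_cases ha : a = 1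
    · exact ⟨Q, inferInstance, inferInstance, ρ, by
        rintro g (rfl | hg)
        exacts [fun _ => ha, h g hg]⟩
    obtain ⟨N, hN⟩ := Group.exists_finiteIndexNormalSubgroup_notMem a ha
    refine ⟨Q × G ⧸ N.toSubgroup, inferInstance, inferInstance, ρ.prod (QuotientGroup.mk' _), ?_⟩
    rintro g (rfl | hg) e
    · exact absurd ((QuotientGroup.eq_one_iff g).1 (congrArg Prod.snd e)) hN
    · exact h g hg (congrArg Prod.fst e)

theorem mobius {J : Type} [PartialOrder J] [Fintype J] [DecidableLE J] (F : J → ℂ)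
    (h : ∀ B, F B = 0 ∨ ∑ B', (if B ≤ B' then F B' else 0) = 0) (B : J) : F B = 0 := by
  classical
  induction B using WellFoundedGT.induction with
  | ind B ih =>
    refine (h B).elim id fun e => ?_
    rwa [Finset.sum_eq_single B (fun B' _ hB => by
      split_ifs with h'
      exacts [ih B' (lt_of_le_of_ne h' hB.symm), rfl]) (by simp), if_pos le_rfl] at e

section Marks

variable {Q : Type} [Group Q]

/-- The number of points fixed by `S`. -/
noncomputable def fix {n : ℕ} (χ : Q →* Perm (Fin n)) (S : Subgroup Q) : ℕ :=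
  cnt fun x => (S : Set Q) ≤ stab χ x

/-- The table of marks of a finite action. -/
def Mk (f : Subgroup Q → ℕ) : Prop := ∃ (n : ℕ) (χ : Q →* Perm (Fin n)), f = fix χ

theorem Mk.zero : Mk (fun _ : Subgroup Q => 0) := ⟨0, 1, funext fun _ => (cnt_false finZeroElim).symm⟩

theorem Mk.add {f g : Subgroup Q → ℕ} (hf : Mk f) (hg : Mk g) : Mk fun S => f S + g S := by
  obtain ⟨a, π, rfl⟩ := hf
  obtain ⟨b, l, rfl⟩ := hg
  exact ⟨a + b, Model.glue (M := permModel) rfl 1 π l, funext fun S =>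
    (cnt_glue rfl 1 π l (fun _ => rfl) fun B => (S : Set Q) ≤ B).symm⟩

theorem Mk.mul {f : Subgroup Q → ℕ} (hf : Mk f) (k : ℕ) : Mk fun S => k * f S := by
  induction k with
  | zero => simpa using Mk.zero
  | succ k ih => simpa [add_mul] using ih.add hf

theorem Mk.sum {ι : Type} (s : Finset ι) {f : ι → Subgroup Q → ℕ} (hf : ∀ i, Mk (f i)) :
    Mk fun S => ∑ i ∈ s, f i S := by
  classical
  induction s using Finset.induction_on with
  | empty => simpa using Mk.zero
  | insert i s hi ih => simpa [Finset.sum_insert hi] using (hf i).add ih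

theorem Mk.conj {f : Subgroup Q → ℕ} (hf : Mk f) (g : Q) (S : Subgroup Q) :
    f (S.map (MulAut.conj g⁻¹).toMonoidHom) = f S := by
  obtain ⟨n, χ, rfl⟩ := hf
  unfold fix
  rw [← cnt_equiv (χ g) fun x => (S : Set Q) ≤ stab χ x]
  refine cnt_congr fun x => ?_
  rw [Subgroup.coe_map, Set.image_subset_iff]
  refine forall₂_congr fun s _ => ?_
  simp [stab, Equiv.symm_apply_eq]

theorem exists_coset [Finite Q] (L : Subgroup Q) : ∃ y, Mk y ∧ y L ≠ 0 ∧
    ∀ S, y S ≠ 0 → Nat.card L ≤ Nat.card S →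
      Nat.card S = Nat.card L ∧ ∀ f, Mk f → f L = f S := by
  let e := Finite.equivFin (Q ⧸ L)
  let χ := e.permCongrHom.toMonoidHom.comp (MulAction.toPermHom Q (Q ⧸ L))
  have h : ∀ (s g : Q), s ∈ stab χ (e g) ↔ g⁻¹ * s * g ∈ L := fun s g => by
    rw [← L.inv_mem_iff]
    simp [stab, χ, QuotientGroup.eq, mul_assoc]
  refine ⟨fix χ, ⟨_, χ, rfl⟩, (cnt_pos.2 ⟨e (1 : Q), fun s hs => (h s 1).2 (by simpa)⟩).ne',
    fun S hS hc => ?_⟩
  obtain ⟨x, hx⟩ := cnt_pos.1 (Nat.pos_of_ne_zero hS)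
  obtain ⟨x, rfl⟩ := e.surjective x
  obtain ⟨g, rfl⟩ := QuotientGroup.mk_surjective x
  have h1 : Nat.card (S.map (MulAut.conj g⁻¹).toMonoidHom) = Nat.card S :=
    Subgroup.card_map_of_injective (MulAut.conj g⁻¹).injective
  have h2 : S.map (MulAut.conj g⁻¹).toMonoidHom = L :=
    Subgroup.eq_of_le_of_card_ge (by
      rintro _ ⟨s, hs, rfl⟩
      simpa using (h s g).1 (hx hs)) (by rwa [h1])
  exact ⟨by rw [← h1, h2], fun f hf => by rw [← h2, hf.conj]⟩

end Marks

theorem level_marks {V : Type} [Finite V] {Q : V → Type} [∀ v, Group (Q v)] [∀ v, Finite (Q v)]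
    (w : ∀ v, Subgroup (Q v) → ℕ) (hw : ∀ v, Mk (w v)) :
    ∃ (k : ℕ) (x : ∀ v, Subgroup (Q v) → ℕ) (B : ℕ → ℕ), (∀ v, Mk (x v)) ∧
      ∀ v S, (k + 1) * w v S + x v S = B (Nat.card S) := by
  classical
  have bd : ∀ f : ∀ v, Subgroup (Q v) → ℕ, ∃ N, ∀ v S, f v S ≤ N := fun f => by
    obtain ⟨N, hN⟩ := (Set.finite_range fun p : Σ v, Subgroup (Q v) => f p.1 p.2).bddAbove
    exact ⟨N, fun v S => hN ⟨⟨v, S⟩, rfl⟩⟩
  obtain ⟨D, hD⟩ := bd fun v S => Nat.card S
  have key : ∀ d, d ≤ D + 1 → ∃ (k : ℕ) (x : ∀ v, Subgroup (Q v) → ℕ) (B : ℕ → ℕ),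
      (∀ v, Mk (x v)) ∧ ∀ v (S : Subgroup (Q v)), d ≤ Nat.card S →
        (k + 1) * w v S + x v S = B (Nat.card S) := by
    intro d hd
    induction hd using Nat.decreasingInduction with
    | self => exact ⟨0, fun _ _ => 0, id, fun _ => Mk.zero, fun v S h =>
        absurd (h.trans (hD v S)) (by omega)⟩
    | of_succ d _ ih =>
      obtain ⟨k, x, B, hx, hB⟩ := ih
      choose y y1 y2 y3 using fun v (L : Subgroup (Q v)) => exists_coset L
      have := fun v => Fintype.ofFinite (Subgroup (Q v))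
      let T : ∀ v, Finset (Subgroup (Q v)) := fun v => univ.filter fun L => Nat.card L = d
      let κ : ∀ v, Subgroup (Q v) → ℕ := fun v S => ∑ L ∈ T v, y v L S
      have hκ : ∀ v, Mk (κ v) := fun v => Mk.sum _ (y1 v)
      obtain ⟨N, hN⟩ := bd κ
      obtain ⟨B₀, hB₀⟩ := bd fun v S => (k + 1) * w v S + x v S
      let m : ∀ v, Subgroup (Q v) → ℕ := fun v L =>
        (B₀ - ((k + 1) * w v L + x v L)) * (N.factorial / κ v L)
      refine ⟨N.factorial * (k + 1) - 1,
        fun v S => N.factorial * x v S + ∑ L ∈ T v, m v L * y v L S,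
        fun j => N.factorial * if j = d then B₀ else B j,
        fun v => ((hx v).mul _).add (Mk.sum _ fun L => (y1 v L).mul _), fun v S hS => ?_⟩
      beta_reduce
      rw [Nat.sub_add_cancel (Nat.mul_pos N.factorial_pos k.succ_pos), ← add_assoc, mul_assoc,
        ← mul_add]
      split_ifs with hd
      · have e1 : ∑ L ∈ T v, m v L * y v L S = m v S * κ v S := by
          rw [Finset.mul_sum]
          refine Finset.sum_congr rfl fun L hL => ?_
          by_cases h0 : y v L S = 0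
          · simp [h0]
          · have := (y3 v L S h0 (by rw [(mem_filter.1 hL).2]; exact hS)).2
            simp only [m, this _ (hw v), this _ (hx v), this _ (hκ v)]
        have e2 : 0 < κ v S := lt_of_lt_of_le (Nat.pos_of_ne_zero (y2 v S))
          (Finset.single_le_sum (f := fun L => y v L S) (fun _ _ => Nat.zero_le _)
            (mem_filter.2 ⟨mem_univ _, hd⟩))
        rw [e1, mul_assoc, Nat.div_mul_cancel (Nat.dvd_factorial e2 (hN v S)), mul_comm _ N.factorial,
          ← mul_add, Nat.add_sub_cancel' (hB₀ v S)]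
      · rw [hB v S (by omega), Finset.sum_eq_zero fun L hL => ?_, add_zero]
        have e := (mem_filter.1 hL).2
        by_contra h0
        exact hd ((y3 v L S (right_ne_zero_of_mul h0) (by rw [e]; exact hS)).1.trans e)
  obtain ⟨k, x, B, h1, h2⟩ := key 0 (Nat.zero_le _)
  exact ⟨k, x, B, h1, fun v S => h2 v S (Nat.zero_le _)⟩

variable {V E : Type} {o t : E → V} {G : V → Type} [∀ v, Group (G v)] {H : E → Type}
  [∀ e, Group (H e)] {α : ∀ e, H e →* G (o e)} {β : ∀ e, H e →* G (t e)}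

theorem exists_quot [Finite E] [∀ e, Finite (H e)] [∀ v, Group.ResiduallyFinite (G v)]
    (hα : ∀ e, Function.Injective (α e)) (hβ : ∀ e, Function.Injective (β e)) :
    ∃ (Q : V → Type) (_ : ∀ v, Group (Q v)) (_ : ∀ v, Finite (Q v)) (ρ : ∀ v, G v →* Q v),
      (∀ e h, ρ (o e) (α e h) = 1 → h = 1) ∧ ∀ e h, ρ (t e) (β e h) = 1 → h = 1 := by
  have hT := (Set.finite_range fun p : Σ e, H e => (⟨o p.1, α p.1 p.2⟩ : Σ v, G v)).union
    (Set.finite_range fun p : Σ e, H e => (⟨t p.1, β p.1 p.2⟩ : Σ v, G v))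
  choose Q i1 i2 ρ hρ using fun v =>
    exists_sep (G v) (hT.preimage (f := Sigma.mk v) sigma_mk_injective.injOn)
  exact ⟨Q, i1, i2, ρ, fun e h e1 => (injective_iff_map_eq_one _).1 (hα e) h
      (hρ _ _ (Or.inl ⟨⟨e, h⟩, rfl⟩) e1),
    fun e h e1 => (injective_iff_map_eq_one _).1 (hβ e) h (hρ _ _ (Or.inr ⟨⟨e, h⟩, rfl⟩) e1)⟩

open Classical in
theorem fix_map {H Q : Type} [Group H] [Group Q] [Fintype (Set H)] (φ : H →* Q) {n : ℕ}
    (χ : Q →* Perm (Fin n)) (S : Subgroup H) : (fix χ (S.map φ) : ℂ) =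
      ∑ B, if (S : Set H) ≤ B then (cnt (fun x => stab (χ.comp φ) x = B) : ℂ) else 0 := by
  have := cnt_fiber (stab (χ.comp φ)) fun B => (S : Set H) ≤ B
  rw [fix, cnt_congr (Q := fun x => (S : Set H) ≤ stab (χ.comp φ) x) fun x => by
    rw [Subgroup.coe_map, Set.image_subset_iff]; rfl, this]
  push_cast
  rfl

theorem perm_cancels [Finite V] [Finite E] [∀ e, Finite (H e)]
    [∀ v, Group.ResiduallyFinite (G v)]
    (hα : ∀ e, Function.Injective (α e)) (hβ : ∀ e, Function.Injective (β e)) :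
    Cancels (fun e => permInv (H e)) α β := by
  classical
  intro m (ψ : ∀ v, G v →* Perm (Fin (m v)))
  obtain ⟨Q, _, _, ρ, h1, h2⟩ := exists_quot hα hβ
  let ρ' : ∀ v, G v →* Perm (Fin (m v)) × Q v := fun v => (ψ v).prod (ρ v)
  obtain ⟨k, x, B, hx, hB⟩ := level_marks (Q := fun v => Perm (Fin (m v)) × Q v)
    (fun v => fix (MonoidHom.fst _ _)) fun v => ⟨_, _, rfl⟩
  choose m' χ hχ using hx
  refine ⟨k, m', fun v => (χ v).comp (ρ' v), funext fun ⟨e, B₀⟩ => ?_⟩
  have := Fintype.ofFinite (Set (H e))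
  let F : Set (H e) → ℂ := fun B => (k + 1) *
    ((cnt (fun x => stab ((MonoidHom.fst _ _).comp ((ρ' _).comp (α e))) x = B) : ℂ) -
      cnt (fun x => stab ((MonoidHom.fst _ _).comp ((ρ' _).comp (β e))) x = B)) +
    ((cnt (fun x => stab ((χ _).comp ((ρ' _).comp (α e))) x = B) : ℂ) -
      cnt (fun x => stab ((χ _).comp ((ρ' _).comp (β e))) x = B))
  have hF := mobius F (fun B => by
    by_cases hS : ∃ S : Subgroup (H e), (S : Set (H e)) = B
    · right
      obtain ⟨S, rfl⟩ := hS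
      have e1 := hB _ (S.map ((ρ' _).comp (α e)))
      rw [Subgroup.card_map_of_injective ((injective_iff_map_eq_one _).2 fun h e =>
        h1 _ h (congrArg Prod.snd e)), hχ] at e1
      have e2 := hB _ (S.map ((ρ' _).comp (β e)))
      rw [Subgroup.card_map_of_injective ((injective_iff_map_eq_one _).2 fun h e =>
        h2 _ h (congrArg Prod.snd e)), hχ, ← e1] at e2
      have e3 := congrArg (Nat.cast : ℕ → ℂ) e2
      push_cast at e3
      simp only [fix_map, Finset.mul_sum, ← Finset.sum_add_distrib] at e3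
      refine Eq.trans ?_ (sub_eq_zero.2 e3.symm)
      rw [← Finset.sum_sub_distrib]
      refine Finset.sum_congr rfl fun B' _ => ?_
      split_ifs
      · simp only [F]
        ring
      · simp
    · left
      have : ∀ {n : ℕ} (χ : H e →* Perm (Fin n)), cnt (fun x => stab χ x = B) = 0 := fun χ =>
        cnt_false fun x hx => hS ⟨(MulAction.stabilizer _ x).comap χ, hx⟩
      simp [F, this]) B₀
  rw [Pi.add_apply, Pi.smul_apply, nsmul_eq_mul, Nat.cast_add, Nat.cast_one]
  exact hF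

end Pool.Agent.Lib.AG6
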