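import Pool.Agent.Lib.MP_098da0_al.Count

namespace Pool.Agent.Lib.AG6

open Finset Pool.Agent.Lib.MP_098da0_al

/-- The parallelogram identity. -/
def Quad {V : Type} [AddCommGroup V] (Q : V → ℝ) : Prop :=
  Q 0 = 0 ∧ ∀ a h, Q (a + h) + Q (a - h) = 2 * Q a + 2 * Q h

section

variable {V : Type} [AddCommGroup V] {Q Q' : V → ℝ}

theorem Quad.add (h : Quad Q) (h' : Quad Q') : Quad fun a => Q a + Q' a :=
  ⟨by simp [h.1, h'.1], fun a x => by linarith [h.2 a x, h'.2 a x]⟩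

theorem Quad.mul (h : Quad Q) (c : ℝ) : Quad fun a => c * Q a :=
  ⟨by simp [h.1], fun a x => by rw [← mul_add, h.2]; ring⟩

theorem Quad.sub (h : Quad Q) (h' : Quad Q') : Quad fun a => Q a - Q' a :=
  ⟨by simp [h.1, h'.1], fun a x => by linarith [h.2 a x, h'.2 a x]⟩

theorem Quad.sum {ι : Type} (s : Finset ι) {Q : ι → V → ℝ} (h : ∀ i, Quad (Q i)) :
    Quad fun a => ∑ i ∈ s, Q i a :=
  ⟨by simp [fun i => (h i).1], fun a x => by
    rw [← Finset.sum_add_distrib, Finset.mul_sum, Finset.mul_sum, ← Finset.sum_add_distrib]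
    exact Finset.sum_congr rfl fun i _ => (h i).2 a x⟩

theorem Quad.comp {U : Type} [AddCommGroup U] (h : Quad Q) (f : U →+ V) : Quad fun a => Q (f a) :=
  ⟨by simp [h.1], fun a x => by simp only [map_add, map_sub]; exact h.2 _ _⟩

theorem quad_sq : Quad fun x : ℝ => x ^ 2 := ⟨by simp, fun a h => by ring⟩

theorem quad_norm : Quad fun x : ℂ => ‖x‖ ^ 2 :=
  ⟨by simp, fun a h => by
    have := parallelogram_law_with_norm ℂ a h
    nlinarith⟩

theorem exists_sign {ι : Type} (P : AddSubgroup V) (B : V → V → ℝ) (R : V → ℝ) (hR0 : R 0 = 0)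
    (hB : ∀ h, Quad (B h))
    (hR : ∀ a ∈ P, ∀ h ∈ P, R (a + h) + R (a - h) ≤ 2 * R a + 12 * B h a + 6 * B h h)
    (hs : ∀ a ∈ P, ∀ h ∈ P, B a h = B h a) (h : ι → V) (hh : ∀ i, h i ∈ P) (s : Finset ι) :
    ∀ Q, Quad Q → ∃ Y ∈ P,
      R Y + Q Y ≤ 3 * ∑ i ∈ s, ∑ j ∈ s, B (h i) (h j) + ∑ i ∈ s, Q (h i) := by
  classical
  induction s using Finset.induction_on with
  | empty => exact fun Q hQ => ⟨0, P.zero_mem, by simp [hR0, hQ.1]⟩
  | insert i s hi ih =>
    intro Q hQ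
    obtain ⟨A, hA, e1⟩ := ih _ (hQ.add ((hB (h i)).mul 6))
    have e2 := hR A hA _ (hh i)
    have e3 := hQ.2 A (h i)
    have e4 : ∑ j ∈ s, B (h j) (h i) = ∑ j ∈ s, B (h i) (h j) :=
      Finset.sum_congr rfl fun j _ => hs _ (hh j) _ (hh i)
    simp only [Finset.sum_insert hi, Finset.sum_add_distrib, ← Finset.mul_sum, e4] at e1 ⊢
    rcases le_total (R (A + h i) + Q (A + h i)) (R (A - h i) + Q (A - h i)) with g | g
    · exact ⟨_, P.add_mem hA (hh i), by linarith⟩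
    · exact ⟨_, P.sub_mem hA (hh i), by linarith⟩

end

theorem tail_count {n : ℕ} (x : Fin n → ℝ) (h2 : 21 * (n : ℝ) ≤ 30 * ∑ i, x i ^ 2)
    (h4 : ∑ i, x i ^ 4 ≤ 900 * n) (h1 : -(n / 1000 : ℝ) ≤ ∑ i, x i) :
    1 / 100000 * (n : ℝ) ≤ cnt fun i => 1 / 1000 < x i := by
  classical
  have key : ∀ i, x i ^ 2 ≤ 1 / 10 - 99999 / 1000 * x i + x i ^ 4 / 5000 +
      20000 * (if 1 / 1000 < x i then 1 else 0) := by
    intro i
    have p4 : 0 ≤ x i ^ 4 := by positivity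
    split_ifs with h
    · rcases le_total (x i) 100 with g | g
      · nlinarith
      · have : 10000 ≤ x i ^ 2 := by nlinarith
        nlinarith [mul_le_mul_of_nonneg_right this (sq_nonneg (x i))]
    · push Not at h
      rcases le_total (x i) (-100) with g | g
      · have : 10000 ≤ x i ^ 2 := by nlinarith
        nlinarith [mul_le_mul_of_nonneg_right this (sq_nonneg (x i))]
      · nlinarith [mul_nonneg (sub_nonneg.2 h) (by linarith : 0 ≤ x i + 100)]
  have e1 := Finset.sum_le_sum fun i (_ : i ∈ univ) => key i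
  simp only [Finset.sum_add_distrib, Finset.sum_sub_distrib, ← Finset.mul_sum, ← Finset.sum_div,
    Finset.sum_const, card_univ, Fintype.card_fin, nsmul_eq_mul] at e1
  have e2 : ((cnt fun i => 1 / 1000 < x i : ℕ) : ℝ) =
      ∑ i, (if 1 / 1000 < x i then (1 : ℝ) else 0) := by
    unfold cnt
    push_cast
    exact Finset.sum_congr rfl fun i _ => by split_ifs <;> rfl
  have : (0 : ℝ) ≤ n := by positivity
  rw [e2]
  linarith

open Classical in
theorem level_count (K : ℕ) (x y : ℝ) :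
    ∑ k ∈ range K, (if ((k : ℝ) < x ↔ (k : ℝ) < y) then (0 : ℝ) else 1) ≤ 2 + (x - y) ^ 2 := by
  wlog hxy : x ≤ y generalizing x y
  · have := this y x (le_of_not_ge hxy)
    simp only [iff_comm] at this
    rwa [← neg_sub, neg_sq] at this
  have e1 : ∑ k ∈ range K, (if ((k : ℝ) < x ↔ (k : ℝ) < y) then (0 : ℝ) else 1) =
      ((range K).filter fun k : ℕ => ¬ ((k : ℝ) < x ↔ (k : ℝ) < y)).card := by
    rw [Finset.card_filter]
    push_cast
    exact Finset.sum_congr rfl fun k _ => by split_ifs <;> simp_all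
  have e2 : ((range K).filter fun k : ℕ => ¬ ((k : ℝ) < x ↔ (k : ℝ) < y)).card ≤
      (Finset.Ico ⌈x⌉ ⌈y⌉).card := by
    refine Finset.card_le_card_of_injOn (fun k => (k : ℤ)) (fun k hk => ?_)
      (fun a _ b _ h => Int.ofNat_inj.1 h)
    have hk' := (mem_filter.1 hk).2
    have g1 : ¬ (k : ℝ) < x := fun h => hk' ⟨fun _ => h.trans_le hxy, fun _ => h⟩
    have g2 : (k : ℝ) < y := by
      by_contra h
      exact hk' ⟨fun h' => absurd h' g1, fun h' => absurd h' h⟩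
    simp only [coe_Ico, Set.mem_Ico, Int.ceil_le, Int.lt_ceil, Int.cast_natCast]
    exact ⟨not_lt.1 g1, g2⟩
  have e3 : ((Finset.Ico ⌈x⌉ ⌈y⌉).card : ℝ) = (⌈y⌉ : ℝ) - ⌈x⌉ := by
    have := Int.card_Ico_of_le ⌈x⌉ ⌈y⌉ (Int.ceil_mono hxy)
    exact_mod_cast this
  have e4 : (((range K).filter fun k : ℕ => ¬ ((k : ℝ) < x ↔ (k : ℝ) < y)).card : ℝ) ≤
      (Finset.Ico ⌈x⌉ ⌈y⌉).card := by exact_mod_cast e2
  have := Int.le_ceil x
  have := Int.ceil_lt_add_one y
  rw [e1]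
  nlinarith [sq_nonneg (x - y + 1)]

open Classical in
theorem thresh {n : ℕ} {σ : Type} (x : Fin n → ℝ) (S : Finset σ) (W : σ → Fin n → Fin n → ℝ)
    (hW0 : ∀ s i j, 0 ≤ W s i j) (hW1 : ∀ s, ∑ i, ∑ j, W s i j ≤ n) {L η : ℝ} (hL : 0 < L)
    (hη : 0 < η) {K : ℕ} (hK : 0 < K) (hn : 150000000 * L ≤ n)
    (h : ∑ i, x i ^ 4 + (3 / L * (∑ i, x i) ^ 2 +
      3 / η * ∑ s ∈ S, ∑ i, ∑ j, (x i - x j) ^ 2 * W s i j - 30 * ∑ i, x i ^ 2) ≤ -21 * n) :
    ∃ θ : ℝ, 1 / 100000 * (n : ℝ) ≤ cnt (fun i => θ < x i) ∧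
      1 / 100000 * (n : ℝ) ≤ cnt (fun i => ¬ θ < x i) ∧
      ∑ s ∈ S, ∑ i, ∑ j, (if (θ < x i ↔ θ < x j) then 0 else W s i j) ≤
        (2 * S.card / K + 150000000 * K * η) * n := by
  set E := ∑ s ∈ S, ∑ i, ∑ j, (x i - x j) ^ 2 * W s i j with hE
  have hE0 : 0 ≤ E := Finset.sum_nonneg fun s _ => Finset.sum_nonneg fun i _ =>
    Finset.sum_nonneg fun j _ => mul_nonneg (sq_nonneg _) (hW0 s i j)
  have hn0 : (0 : ℝ) < n := by linarith
  have hK' : (0 : ℝ) < K := by exact_mod_cast hK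
  have a0 : 30 * ∑ i, x i ^ 2 ≤ (∑ i, x i ^ 4) / 2 + 450 * n := by
    have := Finset.sum_le_sum (f := fun i => 30 * x i ^ 2) (g := fun i => x i ^ 4 / 2 + 450)
      fun i (_ : i ∈ univ) => by nlinarith [sq_nonneg (x i ^ 2 - 30)]
    simp only [Finset.sum_add_distrib, ← Finset.mul_sum, ← Finset.sum_div,
      Finset.sum_const, card_univ, Fintype.card_fin, nsmul_eq_mul] at this
    linarith
  have a1 : 0 ≤ ∑ i, x i ^ 4 := Finset.sum_nonneg fun i _ => by positivity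
  have a2 : 0 ≤ 3 / L * (∑ i, x i) ^ 2 := by positivity
  have a3 : 0 ≤ 3 / η * E := by positivity
  have b1 : (∑ i, x i) ^ 2 ≤ ((n : ℝ) / 1000) ^ 2 := by
    have : 3 / L * (∑ i, x i) ^ 2 ≤ 450 * n := by linarith
    rw [div_mul_eq_mul_div, div_le_iff₀ hL] at this
    nlinarith [mul_le_mul_of_nonneg_right hn hn0.le]
  have b2 := abs_le_of_sq_le_sq' b1 (by positivity)
  have b3 : E ≤ 150 * η * n := by
    have : 3 / η * E ≤ 450 * n := by linarith
    rw [div_mul_eq_mul_div, div_le_iff₀ hη] at this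
    linarith
  have c1 := tail_count x (by linarith) (by linarith) b2.1
  have c2 := tail_count (fun i => -x i) (by simp only [neg_sq]; linarith)
    (by simp only [Even.neg_pow (by decide : Even 4)]; linarith)
    (by rw [Finset.sum_neg_distrib]; linarith [b2.2])
  let f : ℕ → ℝ := fun k => ∑ s ∈ S, ∑ i, ∑ j,
    (if ((k : ℝ) / (1000 * K) < x i ↔ (k : ℝ) / (1000 * K) < x j) then 0 else W s i j)
  have d1 : ∑ k ∈ range K, f k ≤ ∑ _k ∈ range K, (2 * S.card / K + 150000000 * K * η) * n := by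
    have d2 : ∑ k ∈ range K, f k ≤
        ∑ s ∈ S, ∑ i, ∑ j, (2 * W s i j + (1000 * K) ^ 2 * ((x i - x j) ^ 2 * W s i j)) := by
      simp only [f]
      rw [Finset.sum_comm]
      refine Finset.sum_le_sum fun s _ => ?_
      rw [Finset.sum_comm]
      refine Finset.sum_le_sum fun i _ => ?_
      rw [Finset.sum_comm]
      refine Finset.sum_le_sum fun j _ => ?_
      have d3 := mul_le_mul_of_nonneg_right
        (level_count K (x i * (1000 * K)) (x j * (1000 * K))) (hW0 s i j)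
      rw [Finset.sum_mul] at d3
      refine le_trans (le_of_eq (Finset.sum_congr rfl fun k _ => ?_)) (d3.trans (le_of_eq (by ring)))
      simp only [div_lt_iff₀ (by positivity : (0 : ℝ) < 1000 * K)]
      split_ifs <;> simp
    simp only [Finset.sum_add_distrib, ← Finset.mul_sum] at d2
    have d4 : ∑ s ∈ S, ∑ i, ∑ j, W s i j ≤ S.card * n := by
      simpa using Finset.sum_le_sum fun s (_ : s ∈ S) => hW1 s
    rw [Finset.sum_const, card_range, nsmul_eq_mul]
    have d5 : (K : ℝ) * ((2 * S.card / K + 150000000 * K * η) * n) =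
        2 * (S.card * n) + (1000 * K) ^ 2 * (150 * η * n) := by
      field_simp
      ring
    rw [d5]
    have := mul_le_mul_of_nonneg_left b3 (sq_nonneg (1000 * (K : ℝ)))
    linarith
  obtain ⟨k, hk, hk'⟩ := Finset.exists_le_of_sum_le (nonempty_range_iff.2 hK.ne') d1
  have g1 : (k : ℝ) / (1000 * K) ≤ 1 / 1000 := by
    have : (k : ℝ) ≤ K := by exact_mod_cast (mem_range.1 hk).le
    rw [div_le_iff₀ (by positivity)]
    linarith
  have g2 : 0 ≤ (k : ℝ) / (1000 * K) := by positivity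
  refine ⟨k / (1000 * K), c1.trans ?_, c2.trans ?_, hk'⟩
  · exact_mod_cast cnt_mono fun i hi => g1.trans_lt hi
  · have := cnt_mono (P := fun i => (1 : ℝ) / 1000 < -x i)
      (Q := fun i => ¬ (k : ℝ) / (1000 * K) < x i) fun i hi => by
        intro h
        linarith
    exact Nat.cast_le.2 this

theorem exists_param (m : ℕ) {ε : ℝ} (hε : 0 < ε) :
    ∃ (K : ℕ) (η : ℝ), 0 < K ∧ 0 < η ∧ 2 * (m : ℝ) / K + 150000000 * K * η ≤ ε := by
  obtain ⟨K, hK⟩ := exists_nat_gt (4 * (m : ℝ) / ε)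
  have h0 : (0 : ℝ) < K := lt_of_le_of_lt (by positivity) hK
  refine ⟨K, ε / (300000000 * K), by exact_mod_cast h0, by positivity, ?_⟩
  have e1 : 150000000 * (K : ℝ) * (ε / (300000000 * K)) = ε / 2 := by field_simp; ring
  have e2 : 2 * (m : ℝ) / K ≤ ε / 2 := by
    rw [div_lt_iff₀ hε] at hK
    rw [div_le_iff₀ h0]
    linarith
  linarith

end Pool.Agent.Lib.AG6
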