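import Pool.Agent.Lib.MP_098da0_al.Abstract

namespace Pool.Agent.Lib.AG6

open Finset Filter Asymptotics Pool.Agent.Lib.MP_098da0_al

structure MExt (M : Model) : Prop where
  comm : ∀ {a b n : ℕ} (h : a + b = n) (h' : b + a = n), ∃ w : M.C n,
    ∀ (x : M.C a) (y : M.C b), M.bs h (x, y) = w * M.bs h' (y, x) * w⁻¹
  unit : ∀ {n : ℕ} (h : n + 0 = n) (x : M.C n) (y : M.C 0), M.bs h (x, y) = x

variable {M : Model}

theorem MExt.shuffle (X : MExt M) {a1 b1 a2 b2 a b n : ℕ} (h1 : a1 + b1 = a) (h2 : a2 + b2 = b)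
    (h : a + b = n) (h' : (a1 + a2) + (b1 + b2) = n) : ∃ w : M.C n,
      ∀ (x1 : M.C a1) (y1 : M.C b1) (x2 : M.C a2) (y2 : M.C b2),
        M.bs h (M.bs h1 (x1, y1), M.bs h2 (x2, y2)) =
          w * M.bs h' (M.bs rfl (x1, x2), M.bs rfl (y1, y2)) * w⁻¹ := by
  obtain ⟨w, hw⟩ := X.comm (a := b1) (b := a2) (n := b1 + a2) rfl (by omega)
  have e1 : a1 + (b1 + b) = n := by omega
  have e2 : (b1 + a2) + b2 = b1 + b := by omega
  have e3 : a2 + (b1 + b2) = b1 + b := by omega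
  refine ⟨M.bs e1 (1, M.bs e2 (w, 1)), fun x1 y1 x2 y2 => ?_⟩
  rw [M.bs_assoc h1 h rfl e1, ← M.bs_assoc rfl e2 h2 rfl, hw,
    M.bs_assoc (a := a1) (b := a2) rfl h' e3 e1,
    ← M.bs_assoc (a := a2) (b := b1) (c := b2) (by omega) e2 rfl e3, ← map_inv, ← map_mul,
    ← map_mul]
  simp only [Prod.inv_mk, Prod.mk_mul_mk, inv_one, one_mul, mul_one]
  rw [← map_inv, ← map_mul, ← map_mul]
  simp

theorem MExt.glue_right (X : MExt M) {G : Type} [Group G] {n : ℕ} (u : M.C n) (ψ : G →* M.C n)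
    (l : G →* M.C 0) :
    Model.glue (Nat.add_zero n) u ψ l = (MulAut.conj u).toMonoidHom.comp ψ := by
  ext g
  rw [Model.glue_apply, X.unit]
  rfl

theorem MExt.glue_left (X : MExt M) {G : Type} [Group G] {n : ℕ} (ψ : G →* M.C n) :
    ∃ u, ψ = Model.glue (Nat.zero_add n) u 1 ψ := by
  obtain ⟨w, hw⟩ := X.comm (Nat.zero_add n) (Nat.add_zero n)
  refine ⟨w⁻¹, ?_⟩
  ext g
  rw [Model.glue_apply, hw, X.unit]
  group

/-- Approximate halving of representations. -/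
def Halves (M : Model) (G : Type) [Group G] (c : ℝ) : Prop :=
  ∀ (S : Finset G) (ε : ℝ), 0 < ε → ∃ n₀ : ℕ, ∀ n, n₀ ≤ n → ∀ ψ : G →* M.C n,
    ∃ (a b : ℕ) (h : a + b = n) (u : M.C n) (f : G → M.C a × M.C b),
      c * n ≤ a ∧ c * n ≤ b ∧ ∀ s ∈ S, M.D (ψ s) (u * M.bs h (f s) * u⁻¹) ≤ ε * n

theorem small_of_level {k : ℕ → ℕ} {j : ℕ → ℕ} (hj : Tendsto j atTop atTop) {f : ℕ → ℝ}
    (h0 : ∀ n, 0 ≤ f n) (j₀ : ℕ) (h : ∀ n, j₀ ≤ j n → f n ≤ 1 / ((j n : ℝ) + 1) * k n) :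
    Small k f := by
  refine isLittleO_iff.2 fun c hc => ?_
  obtain ⟨m, hm⟩ := exists_nat_one_div_lt hc
  filter_upwards [hj.eventually_ge_atTop (max j₀ m)] with n hn
  rw [Real.norm_of_nonneg (h0 n), Real.norm_of_nonneg (by positivity)]
  refine (h n (le_of_max_le_left hn)).trans (mul_le_mul_of_nonneg_right ?_ (by positivity))
  refine le_trans (one_div_le_one_div_of_le (by positivity) ?_) hm.le
  have : (m : ℝ) ≤ j n := by exact_mod_cast le_of_max_le_right hn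
  linarith

theorem Small.ev {k : ℕ → ℕ} {f : ℕ → ℝ} (h : Small k f) {c : ℝ} (hc : 0 < c) :
    ∀ᶠ n in atTop, f n ≤ c * k n := by
  filter_upwards [isLittleO_iff.1 h hc] with n hn
  rw [Real.norm_of_nonneg (by positivity : (0 : ℝ) ≤ k n)] at hn
  exact (le_abs_self _).trans hn

theorem exists_exhaust (G : Type) [Group G] [Countable G] :
    ∃ S : ℕ → Finset G, ∀ g, ∃ j₀, ∀ j, j₀ ≤ j → g ∈ S j := by
  classical
  obtain ⟨e, he⟩ := exists_surjective_nat G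
  refine ⟨fun j => (range j).image e, fun g => ?_⟩
  obtain ⟨i, rfl⟩ := he g
  exact ⟨i + 1, fun j hj => mem_image_of_mem _ (mem_range.2 hj)⟩

theorem halves_hom {G : Type} [Group G] [Countable G] {c : ℝ} (hc : 0 < c) (hG : M.Stable G)
    (hH : Halves M G c) (S : Finset G) (ε : ℝ) (hε : 0 < ε) :
    ∃ n₀ : ℕ, ∀ n, n₀ ≤ n → ∀ ψ : G →* M.C n,
      ∃ (a b : ℕ) (h : a + b = n) (u : M.C n) (π : G →* M.C a) (l : G →* M.C b),
        c * n ≤ a ∧ c * n ≤ b ∧ ∀ s ∈ S, M.D (ψ s) (Model.glue h u π l s) ≤ ε * n := by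
  by_contra hcon
  push Not at hcon
  obtain ⟨T, hT⟩ := exists_exhaust G
  choose n₀ hn₀ using fun j : ℕ => hH (T j) (1 / ((j : ℝ) + 1)) (by positivity)
  choose k hk ψ hψ using fun j => hcon (n₀ j)
  choose a b h u f ha hb hf using fun j => hn₀ j (k j) (hk j) (ψ j)
  have h1 : ∀ g, Small k (fun j => M.D (ψ j g) (u j * M.bs (h j) (f j g) * (u j)⁻¹)) := by
    intro g
    obtain ⟨j₀, hj₀⟩ := hT g
    exact small_of_level tendsto_id (fun _ => M.D_nonneg _ _) j₀ fun j hj => hf j g (hj₀ j hj)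
  have h2 : ∀ g g', Small k (fun j => M.D ((f j g).1 * (f j g').1) (f j (g * g')).1 +
      M.D ((f j g).2 * (f j g').2) (f j (g * g')).2) := by
    intro g g'
    have e1 := Model.small_mul (Model.small_symm (h1 g)) (Model.small_symm (h1 g'))
    have e2 := h1 (g * g')
    simp only [map_mul] at e2
    refine (Model.small_tri e1 e2).congr_left fun j => ?_
    rw [← M.D_bs (h j), ← M.D_conj (u j) (M.bs (h j) _) (M.bs (h j) _)]
    congr 1
    rw [← Prod.mk_mul_mk, map_mul]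
    group
  have hbig : ∀ a : ℕ → ℕ, (∀ j, c * k j ≤ a j) → ∀ F, Small k F → Small a F := by
    intro a ha F hF
    refine hF.trans_isBigO (IsBigO.of_bound c⁻¹ (Eventually.of_forall fun j => ?_))
    rw [Real.norm_of_nonneg (by positivity), Real.norm_of_nonneg (by positivity),
      le_inv_mul_iff₀ hc]
    exact ha j
  obtain ⟨π, hπ⟩ := hG a (fun j g => (f j g).1) fun g g' => hbig a ha _
    (Small.of_le (h2 g g') (fun _ => M.D_nonneg _ _)
      fun j => le_add_of_nonneg_right (M.D_nonneg _ _))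
  obtain ⟨l, hl⟩ := hG b (fun j g => (f j g).2) fun g g' => hbig b hb _
    (Small.of_le (h2 g g') (fun _ => M.D_nonneg _ _)
      fun j => le_add_of_nonneg_left (M.D_nonneg _ _))
  have h3 : ∀ g, Small k (fun j => M.D (ψ j g) (Model.glue (h j) (u j) (π j) (l j) g)) := by
    intro g
    refine Model.small_tri (h1 g) ?_
    refine (((hπ g).mono fun j => by have := h j; omega).add
      ((hl g).mono fun j => by have := h j; omega)).congr_left fun j => ?_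
    rw [Model.glue_apply, M.D_conj, ← M.D_bs (h j)]
  have h4 : ∀ᶠ j in atTop, ∀ s ∈ S,
      M.D (ψ j s) (Model.glue (h j) (u j) (π j) (l j) s) ≤ ε * k j :=
    (eventually_all_finset S).2 fun s _ => Small.ev (h3 s) hε
  obtain ⟨j, hj⟩ := h4.exists
  obtain ⟨s, hs, hs'⟩ := hψ j _ _ (h j) (u j) (π j) (l j) (ha j) (hb j)
  exact absurd (hj s hs) (not_le.2 hs')

section Greedy

variable {G : Type} [Group G] {W : Type} [NormedAddCommGroup W] [InnerProductSpace ℂ W]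

theorem two_choice (v x : W) {ρ : ℝ} (h0 : 0 ≤ ρ) (h1 : ρ ≤ 1) :
    ‖v + x - (ρ : ℂ) • x‖ ^ 2 ≤ ‖v‖ ^ 2 + ‖x‖ ^ 2 ∨
      ‖v + 0 - (ρ : ℂ) • x‖ ^ 2 ≤ ‖v‖ ^ 2 + ‖x‖ ^ 2 := by
  have e1 : v + x - (ρ : ℂ) • x = v + ((1 - ρ : ℝ) : ℂ) • x := by
    push_cast
    rw [sub_smul, one_smul]
    abel
  have e2 : v + 0 - (ρ : ℂ) • x = v + ((-ρ : ℝ) : ℂ) • x := by
    push_cast
    rw [neg_smul]
    abel
  have e3 : ∀ r : ℝ, ‖v + (r : ℂ) • x‖ ^ 2 =
      ‖v‖ ^ 2 + 2 * (r * (inner ℂ v x).re) + r ^ 2 * ‖x‖ ^ 2 := by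
    intro r
    rw [norm_add_sq (𝕜 := ℂ), inner_smul_right, norm_smul, mul_pow]
    simp
  rw [e1, e2, e3, e3]
  have hx := sq_nonneg ‖x‖
  rcases le_total ((inner ℂ v x).re) 0 with h | h
  · left
    have : (1 - ρ) ^ 2 ≤ 1 := by nlinarith
    nlinarith [mul_nonneg (sub_nonneg.2 h1) (neg_nonneg.2 h), mul_le_mul_of_nonneg_right this hx]
  · right
    have : (-ρ) ^ 2 ≤ 1 := by nlinarith
    nlinarith [mul_nonneg h0 h, mul_le_mul_of_nonneg_right this hx]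

variable (T : ∀ {n : ℕ}, (G →* M.C n) → W)

theorem greedy [Countable G] (X : MExt M) {c K ρ : ℝ} (hc : 0 < c) (hc1 : c ≤ 1) (hG : M.Stable G)
    (hH : Halves M G c) (h0 : 0 ≤ ρ) (h1 : ρ ≤ 1)
    (hT : ∀ {a b n : ℕ} (h : a + b = n) (u : M.C n) (π : G →* M.C a) (l : G →* M.C b),
      T (Model.glue h u π l) = T π + T l)
    (hK : ∀ {n : ℕ} (ψ : G →* M.C n), ‖T ψ‖ ≤ K * n) (m : ℕ) :
    ∀ (S : Finset G) (ε : ℝ), 0 < ε → ∃ n₀ : ℕ, ∀ n, n₀ ≤ n → ∀ ψ : G →* M.C n,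
      ∃ χ : G →* M.C n, (∀ s ∈ S, M.D (ψ s) (χ s) ≤ ε * n) ∧ ∀ v : W,
        ∃ (a b : ℕ) (h : a + b = n) (u : M.C n) (π : G →* M.C a) (l : G →* M.C b),
          χ = Model.glue h u π l ∧
          ‖v + T l - (ρ : ℂ) • T χ‖ ^ 2 ≤ ‖v‖ ^ 2 + K ^ 2 * (1 - c) ^ m * (n : ℝ) ^ 2 := by
  induction m with
  | zero =>
    intro S ε hε
    refine ⟨0, fun n _ ψ => ⟨ψ, fun s _ => by rw [M.D_self]; positivity, fun v => ?_⟩⟩
    have hn : ‖T ψ‖ ^ 2 ≤ K ^ 2 * (1 - c) ^ 0 * (n : ℝ) ^ 2 := by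
      rw [pow_zero, mul_one, ← mul_pow]
      exact pow_le_pow_left₀ (norm_nonneg _) (hK ψ) 2
    rcases two_choice v (T ψ) h0 h1 with h | h
    · obtain ⟨u, hu⟩ := X.glue_left ψ
      exact ⟨0, n, _, u, 1, ψ, hu, by linarith⟩
    · refine ⟨n, 0, rfl, 1, ψ, 1, ?_, ?_⟩
      · rw [X.glue_right]
        ext g
        simp
      · have : T (1 : G →* M.C 0) = 0 := by simpa using hK (1 : G →* M.C 0)
        rw [this]
        linarith
  | succ m ih =>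
    intro S ε hε
    obtain ⟨n₁, hn₁⟩ := ih S (ε / 4) (by positivity)
    obtain ⟨n₂, hn₂⟩ := halves_hom hc hG hH S (ε / 4) (by positivity)
    obtain ⟨n₃, hn₃⟩ := exists_nat_ge (n₁ / c)
    refine ⟨max n₂ n₃, fun n hn ψ => ?_⟩
    obtain ⟨a, b, h, u, ψ1, ψ2, ha, hb, hd⟩ := hn₂ n (le_of_max_le_left hn) ψ
    have hcn : (n₁ : ℝ) ≤ c * n := by
      have : (n₃ : ℝ) ≤ n := by exact_mod_cast le_of_max_le_right hn
      rw [div_le_iff₀ hc] at hn₃
      nlinarith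
    obtain ⟨χ1, hχ1, g1⟩ := hn₁ a (by exact_mod_cast hcn.trans ha) ψ1
    obtain ⟨χ2, hχ2, g2⟩ := hn₁ b (by exact_mod_cast hcn.trans hb) ψ2
    have hab : (a : ℝ) + b = n := by exact_mod_cast h
    refine ⟨Model.glue h u χ1 χ2, fun s hs => ?_, fun v => ?_⟩
    · have e1 := M.D_tri (ψ s) (Model.glue h u ψ1 ψ2 s) (Model.glue h u χ1 χ2 s)
      have e2 := hd s hs
      have e3 := hχ1 s hs
      have e4 := hχ2 s hs
      rw [Model.glue_apply h u χ1, Model.glue_apply h u ψ1, M.D_conj, M.D_bs,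
        ← Model.glue_apply, ← Model.glue_apply] at e1
      nlinarith
    · obtain ⟨a1, b1, h1', u1, π1, l1, e1, f1⟩ := g1 v
      obtain ⟨a2, b2, h2', u2, π2, l2, e2, f2⟩ := g2 (v + T l1 - (ρ : ℂ) • T χ1)
      have h' : (a1 + a2) + (b1 + b2) = n := by omega
      obtain ⟨w, hw⟩ := X.shuffle h1' h2' h h'
      refine ⟨a1 + a2, b1 + b2, h', u * M.bs h (u1, u2) * w, Model.glue rfl 1 π1 π2,
        Model.glue rfl 1 l1 l2, ?_, ?_⟩
      · ext g
        rw [e1, e2]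
        simp only [Model.glue_apply, one_mul, inv_one, mul_one]
        rw [← Prod.mk_mul_mk, ← Prod.mk_mul_mk, map_mul, map_mul, hw, ← Prod.inv_mk, map_inv]
        group
      · have e3 : v + T (Model.glue rfl 1 l1 l2) - (ρ : ℂ) • T (Model.glue h u χ1 χ2) =
            v + T l1 - (ρ : ℂ) • T χ1 + T l2 - (ρ : ℂ) • T χ2 := by
          rw [hT, hT, smul_add]
          abel
        rw [e3]
        have ha0 : (0 : ℝ) ≤ a := by positivity
        have hb0 : (0 : ℝ) ≤ b := by positivity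
        have e4 : (a : ℝ) ^ 2 + (b : ℝ) ^ 2 ≤ (1 - c) * (n : ℝ) ^ 2 := by
          have : (a : ℝ) ≤ (1 - c) * n := by linarith
          have : (b : ℝ) ≤ (1 - c) * n := by linarith
          calc (a : ℝ) ^ 2 + (b : ℝ) ^ 2 ≤ a * ((1 - c) * n) + b * ((1 - c) * n) := by nlinarith
            _ = _ := by rw [← add_mul, hab]; ring
        have hc2 : 0 ≤ 1 - c := by linarith
        have e5 : 0 ≤ K ^ 2 * (1 - c) ^ m := by positivity
        have e6 := mul_le_mul_of_nonneg_left e4 e5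
        rw [pow_succ (1 - c)]
        nlinarith

theorem shrink [Countable G] (X : MExt M) {c K ρ : ℝ} (hc : 0 < c) (hc1 : c ≤ 1)
    (hG : M.Stable G) (hH : Halves M G c) (h0 : 0 ≤ ρ) (h1 : ρ ≤ 1)
    (hT : ∀ {a b n : ℕ} (h : a + b = n) (u : M.C n) (π : G →* M.C a) (l : G →* M.C b),
      T (Model.glue h u π l) = T π + T l)
    (hK : ∀ {n : ℕ} (ψ : G →* M.C n), ‖T ψ‖ ≤ K * n) (S : Finset G) (ε : ℝ) (hε : 0 < ε) :
    ∃ n₀ : ℕ, ∀ n, n₀ ≤ n → ∀ ψ : G →* M.C n,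
      ∃ (a b : ℕ) (h : a + b = n) (u : M.C n) (π : G →* M.C a) (l : G →* M.C b),
        (∀ s ∈ S, M.D (ψ s) (Model.glue h u π l s) ≤ ε * n) ∧
        ‖T l - (ρ : ℂ) • T (Model.glue h u π l)‖ ≤ ε * n := by
  obtain ⟨m, hm⟩ := exists_pow_lt_of_lt_one (x := ε ^ 2 / (K ^ 2 + 1)) (y := 1 - c)
    (by positivity) (by linarith)
  obtain ⟨n₀, hn₀⟩ := greedy T X hc hc1 hG hH h0 h1 hT hK m S ε hε
  refine ⟨n₀, fun n hn ψ => ?_⟩
  obtain ⟨χ, hχ, g⟩ := hn₀ n hn ψ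
  obtain ⟨a, b, h, u, π, l, rfl, f⟩ := g 0
  refine ⟨a, b, h, u, π, l, hχ, ?_⟩
  rw [zero_add, norm_zero] at f
  refine abs_le_of_sq_le_sq' (f.trans ?_) (by positivity) |>.2
  rw [lt_div_iff₀ (by positivity)] at hm
  have e1 : 0 ≤ (1 - c) ^ m := pow_nonneg (by linarith) _
  have e2 : K ^ 2 * (1 - c) ^ m ≤ ε ^ 2 := by nlinarith
  have := mul_le_mul_of_nonneg_right e2 (sq_nonneg (n : ℝ))
  nlinarith

end Greedy

end Pool.Agent.Lib.AG6
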